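import Pool.Agent.Lib.MP_1dbab3_gt.G3.Def
import Pool.Agent.Lib.MP_1dbab3_gt.W.PhiN

/-!
Row G3-A1: second order interpolation of `Phi` (`|Phi''| = |PhiN 2| ≤ mom 2 / 2`, `PhiN_taylor hα 2 0`,
`PhiN_hasDerivAt`; `± Phi + M x² / 2` is convex on `[x0, x1]`, see the proof of `PhiN_interp`).
-/

open Real MeasureTheory Set Filter Topology

namespace LpSec.G3

variable {α : ℝ}

theorem convex_aux {f f1 f2 : ℝ → ℝ} {M a b t : ℝ} (hab : a ≤ b) (hc : ContinuousOn f (Icc a b))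
    (h1 : ∀ x ∈ Ioo a b, HasDerivAt f (f1 x) x) (h2 : ∀ x ∈ Ioo a b, HasDerivAt f1 (f2 x) x)
    (h3 : ∀ x ∈ Ioo a b, -M ≤ f2 x) (hM : 0 ≤ M) (ht0 : 0 ≤ t) (ht1 : t ≤ 1) :
    f ((1 - t) * a + t * b) ≤ (1 - t) * f a + t * f b + M * (b - a) ^ 2 / 8 := by
  have hconv : ConvexOn ℝ (Icc a b) (fun x => f x + M * (x ^ 2 / 2)) := by
    refine convexOn_of_hasDerivWithinAt2_nonneg (convex_Icc a b) (f' := fun x => f1 x + M * x)
      (f'' := fun x => f2 x + M) ?_ ?_ ?_ ?_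
    · exact hc.add (by fun_prop)
    · intro x hx
      rw [interior_Icc] at hx
      refine HasDerivAt.hasDerivWithinAt (((h1 x hx).add
        (((hasDerivAt_pow 2 x).div_const 2).const_mul M)).congr_deriv ?_)
      simp only [Nat.cast_ofNat, Nat.add_one_sub_one, pow_one]
      ring
    · intro x hx
      rw [interior_Icc] at hx
      refine HasDerivAt.hasDerivWithinAt (((h2 x hx).add
        ((hasDerivAt_id x).const_mul M)).congr_deriv ?_)
      ring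
    · intro x hx
      rw [interior_Icc] at hx
      have := h3 x hx
      linarith
  have h4 := hconv.2 (left_mem_Icc.2 hab) (right_mem_Icc.2 hab) (show 0 ≤ 1 - t by linarith) ht0
    (by ring)
  simp only [smul_eq_mul] at h4
  have h5 : t * (1 - t) ≤ 1 / 4 := by nlinarith [sq_nonneg (t - 1 / 2)]
  have h6 : M * (t * (1 - t)) * (b - a) ^ 2 / 2 ≤ M * (b - a) ^ 2 / 8 := by
    have h7 : 0 ≤ M * (b - a) ^ 2 := mul_nonneg hM (sq_nonneg _)
    nlinarith
  have e : (1 - t) * (f a + M * (a ^ 2 / 2)) + t * (f b + M * (b ^ 2 / 2)) -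
      M * (((1 - t) * a + t * b) ^ 2 / 2) =
      (1 - t) * f a + t * f b + M * (t * (1 - t)) * (b - a) ^ 2 / 2 := by ring
  linarith

theorem phi_interp (hα : 1 < α) {M : ℝ} (hM : mom α 2 / 2 ≤ M) {x0 x1 t : ℝ} (h0 : 0 ≤ x0)
    (h01 : x0 ≤ x1) (ht0 : 0 ≤ t) (ht1 : t ≤ 1) :
    |Phi α ((1 - t) * x0 + t * x1) - ((1 - t) * Phi α x0 + t * Phi α x1)| ≤
      M * (x1 - x0) ^ 2 / 8 := by
  have hb : ∀ s : ℝ, 0 ≤ s → |PhiN α 2 s| ≤ M := by
    intro s hs
    have h := PhiN_taylor hα 2 0 hs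
    simp only [Finset.range_zero, Finset.sum_empty, sub_zero, zero_add, pow_zero, mul_one,
      Nat.factorial_zero, Nat.cast_one, one_mul, Nat.factorial_two, Nat.cast_ofNat] at h
    exact h.trans hM
  have hM0 : 0 ≤ M := (abs_nonneg _).trans (hb 0 le_rfl)
  have hc : ContinuousOn (PhiN α 0) (Icc x0 x1) := (PhiN_continuousOn hα 0).mono fun y hy =>
    h0.trans hy.1
  have hpos : ∀ y ∈ Ioo x0 x1, 0 < y := fun y hy => lt_of_le_of_lt h0 hy.1
  have h1 : ∀ y ∈ Ioo x0 x1, HasDerivAt (PhiN α 0) (-(PhiN α 1 y)) y := fun y hy =>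
    PhiN_hasDerivAt hα 0 (hpos y hy)
  have h2 : ∀ y ∈ Ioo x0 x1, HasDerivAt (fun y => -(PhiN α 1 y)) (PhiN α 2 y) y :=
    fun y hy => (PhiN_hasDerivAt hα 1 (hpos y hy)).neg.congr_deriv (neg_neg _)
  have h3 : ∀ y ∈ Ioo x0 x1, |PhiN α 2 y| ≤ M := fun y hy => hb y (hpos y hy).le
  rw [← PhiN_zero, ← PhiN_zero, ← PhiN_zero, abs_le]
  constructor
  · have h := convex_aux (f := fun y => -(PhiN α 0 y)) (f1 := fun y => -(-(PhiN α 1 y)))
      (f2 := fun y => -(PhiN α 2 y)) h01 hc.neg (fun y hy => (h1 y hy).neg)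
      (fun y hy => (h2 y hy).neg) (fun y hy => by
        have := (abs_le.1 (h3 y hy)).2
        linarith) hM0 ht0 ht1
    linarith
  · have h := convex_aux (f := PhiN α 0) (f1 := fun y => -(PhiN α 1 y))
      (f2 := fun y => PhiN α 2 y) h01 hc h1 h2 (fun y hy => (abs_le.1 (h3 y hy)).1) hM0 ht0 ht1
    linarith

end LpSec.G3
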