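import Pool.Agent.Lib.MP_1dbab3_gt.G3.Def

/-!
Row G3-A2: weighted Cauchy-Schwarz. `s²|Φ(s)||Φ(xs)| ≤ (ρ s²Φ(s)² + s²Φ(xs)²/ρ)/2`, and
`∫_0^6 s²Φ(xs)² ds = x^{-3} ∫_0^{6x} t²Φ(t)² dt ≤ ρ² Q`.
-/

open Real MeasureTheory Set Filter Topology

namespace LpSec.G3

variable {α : ℝ}

theorem weighted (hα : 1 < α) {x x0 Q ρ : ℝ} (hx0 : 0 < x0) (hx : x0 ≤ x) (hx1 : x ≤ 1)
    (hQ : Q6 α ≤ Q) (hρ : 0 < ρ) (hρ2 : 1 ≤ ρ ^ 2 * x0 ^ 3) :
    ∫ s in (0 : ℝ)..6, s ^ 2 * (|Phi α s| * |Phi α (x * s)|) ≤ Q * ρ := by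
  have hx0' : 0 < x := hx0.trans_le hx
  have cF : ContinuousOn (Phi α) (Icc 0 6) :=
    (Phi_continuousOn hα).mono Icc_subset_Ici_self
  have cX : ContinuousOn (fun s => Phi α (x * s)) (Icc 0 6) :=
    (Phi_continuousOn hα).comp (by fun_prop) fun s hs => mul_nonneg hx0'.le hs.1
  have cp : ContinuousOn (fun s : ℝ => s ^ 2) (Icc 0 6) := (continuous_pow 2).continuousOn
  have h06 : (0 : ℝ) ≤ 6 := by norm_num
  have i1 : IntervalIntegrable (fun s => s ^ 2 * Phi α s ^ 2) volume 0 6 :=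
    (cp.mul (cF.pow 2)).intervalIntegrable_of_Icc h06
  have i2 : IntervalIntegrable (fun s => s ^ 2 * Phi α (x * s) ^ 2) volume 0 6 :=
    (cp.mul (cX.pow 2)).intervalIntegrable_of_Icc h06
  have i0 : IntervalIntegrable (fun s => s ^ 2 * (|Phi α s| * |Phi α (x * s)|)) volume 0 6 :=
    (cp.mul (cF.abs.mul cX.abs)).intervalIntegrable_of_Icc h06
  have i3 := i1.const_mul (ρ / 2)
  have i4 := i2.const_mul (1 / (2 * ρ))
  have hm := intervalIntegral.integral_mono_on h06 i0 (i3.add i4) (fun s _ => by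
    show s ^ 2 * (|Phi α s| * |Phi α (x * s)|) ≤ ρ / 2 * (s ^ 2 * Phi α s ^ 2) +
      1 / (2 * ρ) * (s ^ 2 * Phi α (x * s) ^ 2)
    have h1 : 0 ≤ (ρ * |Phi α s| - |Phi α (x * s)|) ^ 2 := sq_nonneg _
    have e1 : ρ / 2 * (s ^ 2 * Phi α s ^ 2) + 1 / (2 * ρ) * (s ^ 2 * Phi α (x * s) ^ 2) -
        s ^ 2 * (|Phi α s| * |Phi α (x * s)|) =
        s ^ 2 / (2 * ρ) * (ρ * |Phi α s| - |Phi α (x * s)|) ^ 2 := by
      rw [← sq_abs (Phi α s), ← sq_abs (Phi α (x * s))]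
      field_simp
      ring
    have h2 : 0 ≤ s ^ 2 / (2 * ρ) * (ρ * |Phi α s| - |Phi α (x * s)|) ^ 2 := by positivity
    linarith)
  rw [intervalIntegral.integral_add i3 i4, intervalIntegral.integral_const_mul,
    intervalIntegral.integral_const_mul] at hm
  have hsub : ∫ s in (0 : ℝ)..6, s ^ 2 * Phi α (x * s) ^ 2 =
      (x ^ 3)⁻¹ * ∫ t in (0 : ℝ)..(x * 6), t ^ 2 * Phi α t ^ 2 := by
    have h3 := intervalIntegral.integral_comp_mul_left (a := (0 : ℝ)) (b := 6)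
      (fun t => t ^ 2 * Phi α t ^ 2) hx0'.ne'
    rw [mul_zero, smul_eq_mul] at h3
    have e2 : (x ^ 3)⁻¹ * ∫ t in (0 : ℝ)..(x * 6), t ^ 2 * Phi α t ^ 2 =
        (x ^ 2)⁻¹ * (x⁻¹ * ∫ t in (0 : ℝ)..(x * 6), t ^ 2 * Phi α t ^ 2) := by
      rw [← mul_assoc, ← mul_inv, ← pow_succ]
    rw [e2, ← h3, ← intervalIntegral.integral_const_mul]
    refine intervalIntegral.integral_congr fun s _ => ?_
    show s ^ 2 * Phi α (x * s) ^ 2 = (x ^ 2)⁻¹ * ((x * s) ^ 2 * Phi α (x * s) ^ 2)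
    field_simp
  have hle : ∫ t in (0 : ℝ)..(x * 6), t ^ 2 * Phi α t ^ 2 ≤ Q := by
    refine le_trans ?_ hQ
    unfold Q6
    refine intervalIntegral.integral_mono_interval le_rfl (by positivity) (by linarith)
      (Eventually.of_forall fun t => by positivity) i1
  have hQ0 : 0 ≤ Q := by
    refine le_trans ?_ hQ
    exact intervalIntegral.integral_nonneg h06 fun t _ => by positivity
  have h4 : (x ^ 3)⁻¹ * ∫ t in (0 : ℝ)..(x * 6), t ^ 2 * Phi α t ^ 2 ≤ ρ ^ 2 * Q := by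
    have h5 : (x ^ 3)⁻¹ ≤ ρ ^ 2 := by
      rw [inv_le_iff_one_le_mul₀ (by positivity)]
      refine hρ2.trans ?_
      gcongr
    exact mul_le_mul h5 hle (intervalIntegral.integral_nonneg (by positivity) fun t _ => by
      positivity) (by positivity)
  rw [hsub] at hm
  have h6 := mul_le_mul_of_nonneg_left h4 (by positivity : (0 : ℝ) ≤ 1 / (2 * ρ))
  have h7 : (∫ s in (0 : ℝ)..6, s ^ 2 * Phi α s ^ 2) ≤ Q := hQ
  have h8 := mul_le_mul_of_nonneg_left h7 (by positivity : (0 : ℝ) ≤ ρ / 2)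
  have e3 : 1 / (2 * ρ) * (ρ ^ 2 * Q) = ρ / 2 * Q := by
    field_simp
  linarith

end LpSec.G3
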