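import Pool.Agent.Lib.MP_1dbab3_gt.G3.A1
import Pool.Agent.Lib.MP_1dbab3_gt.G3.A2

/-!
Row G3-A3: bilinear interpolation of `H6`. Pointwise, with `f = Phi α`, `ζ = ζ0 + t h`, `ω = ω0 + r h`,
`c1 = (1-t) f(ζ0 s) + t f((ζ0+h) s)`, `c2` the same for `ω`:
`f(ζs) f(ωs) - c1 c2 = (f(ζs) - c1) f(ωs) + c1 (f(ωs) - c2)`, `|f(ζs) - c1| ≤ M h² s² / 8` (`phi_interp`).
Integrate against `f(s)` and use `weighted` for `x = ω`, `ζ0`, `ζ0 + h`.
-/

open Real MeasureTheory Set Filter Topology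

namespace LpSec.G3

variable {α : ℝ}

theorem cont_phi (hα : 1 < α) {z : ℝ} (hz : 0 ≤ z) :
    ContinuousOn (fun s => Phi α (z * s)) (Icc 0 6) :=
  (Phi_continuousOn hα).comp (by fun_prop) (fun s hs => mul_nonneg hz hs.1)

theorem cont_phi1 (hα : 1 < α) : ContinuousOn (fun s => Phi α s) (Icc 0 6) :=
  (Phi_continuousOn hα).mono (fun _ hs => hs.1)

theorem int_phi3 (hα : 1 < α) {z w : ℝ} (hz : 0 ≤ z) (hw : 0 ≤ w) :
    IntervalIntegrable (fun s => Phi α s * (Phi α (z * s) * Phi α (w * s))) volume 0 6 := by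
  apply ContinuousOn.intervalIntegrable
  rw [uIcc_of_le (by norm_num)]
  exact (cont_phi1 hα).mul ((cont_phi hα hz).mul (cont_phi hα hw))

theorem int_wt (hα : 1 < α) {z : ℝ} (hz : 0 ≤ z) :
    IntervalIntegrable (fun s => s ^ 2 * (|Phi α s| * |Phi α (z * s)|)) volume 0 6 := by
  apply ContinuousOn.intervalIntegrable
  rw [uIcc_of_le (by norm_num)]
  exact (continuousOn_id.pow 2).mul ((cont_phi1 hα).abs.mul (cont_phi hα hz).abs)

theorem prod_sub_le {f a b c1 c2 p q e : ℝ} (h1 : |a - c1| ≤ e) (h2 : |b - c2| ≤ e)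
    (hc : |c1| ≤ p + q) :
    f * (a * b) ≤ f * (c1 * c2) + e * (|f| * |b| + |f| * p + |f| * q) := by
  have e1 : f * (a * b) - f * (c1 * c2) = f * ((a - c1) * b) + f * (c1 * (b - c2)) := by ring
  have e2 : f * ((a - c1) * b) ≤ |f| * (e * |b|) := by
    refine (le_abs_self _).trans ?_
    rw [abs_mul, abs_mul]
    exact mul_le_mul_of_nonneg_left (mul_le_mul_of_nonneg_right h1 (abs_nonneg _)) (abs_nonneg _)
  have e3 : f * (c1 * (b - c2)) ≤ |f| * ((p + q) * e) := by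
    refine (le_abs_self _).trans ?_
    rw [abs_mul, abs_mul]
    exact mul_le_mul_of_nonneg_left (mul_le_mul hc h2 (abs_nonneg _) ((abs_nonneg _).trans hc))
      (abs_nonneg _)
  nlinarith

theorem H6_interp (hα : 1 < α) {M Q ρ1 ρ2 h ζ0 ω0 t r : ℝ} (hM : mom α 2 / 2 ≤ M) (hh : 0 ≤ h)
    (hζ0 : 0 < ζ0) (hω0 : 0 < ω0) (hζ1 : ζ0 + h ≤ 1) (hω1 : ω0 + h ≤ 1) (ht0 : 0 ≤ t) (ht1 : t ≤ 1)
    (hr0 : 0 ≤ r) (hr1 : r ≤ 1) (hQ : Q6 α ≤ Q) (hρ1 : 0 < ρ1) (hρ1' : 1 ≤ ρ1 ^ 2 * ζ0 ^ 3)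
    (hρ2 : 0 < ρ2) (hρ2' : 1 ≤ ρ2 ^ 2 * ω0 ^ 3) :
    H6 α (ζ0 + t * h) (ω0 + r * h) ≤
      (1 - t) * (1 - r) * H6 α ζ0 ω0 + t * (1 - r) * H6 α (ζ0 + h) ω0 +
        (1 - t) * r * H6 α ζ0 (ω0 + h) + t * r * H6 α (ζ0 + h) (ω0 + h) +
        M * h ^ 2 / 8 * Q * (ρ1 + ρ2) := by
  have hM0 : 0 ≤ M := by
    have := (abs_nonneg _).trans (phi_interp hα hM (x0 := 0) (x1 := 1) (t := 0) le_rfl
      zero_le_one le_rfl zero_le_one)
    linarith
  have hth : 0 ≤ t * h := mul_nonneg ht0 hh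
  have hth1 : t * h ≤ h := by nlinarith
  have hrh : 0 ≤ r * h := mul_nonneg hr0 hh
  have hrh1 : r * h ≤ h := by nlinarith
  have hz1 : 0 ≤ ζ0 + h := by linarith
  have hw1 : 0 ≤ ω0 + h := by linarith
  have hw : 0 ≤ ω0 + r * h := by linarith
  have hz : 0 ≤ ζ0 + t * h := by linarith
  -- the five integrable functions
  have i00 := int_phi3 hα hζ0.le hω0.le
  have i10 := int_phi3 hα hz1 hω0.le
  have i01 := int_phi3 hα hζ0.le hw1
  have i11 := int_phi3 hα hz1 hw1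
  have j0 := int_wt hα hw
  have j1 := int_wt hα hζ0.le
  have j2 := int_wt hα hz1
  have w0 := weighted hα hω0 (x := ω0 + r * h) (by linarith) (by linarith) hQ hρ2 hρ2'
  have w1 := weighted hα hζ0 (x := ζ0) le_rfl (by linarith) hQ hρ1 hρ1'
  have w2 := weighted hα hζ0 (x := ζ0 + h) (by linarith) (by linarith) hQ hρ1 hρ1'
  have key : H6 α (ζ0 + t * h) (ω0 + r * h) ≤ ∫ s in (0 : ℝ)..6,
      (((1 - t) * (1 - r) * (Phi α s * (Phi α (ζ0 * s) * Phi α (ω0 * s))) +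
        t * (1 - r) * (Phi α s * (Phi α ((ζ0 + h) * s) * Phi α (ω0 * s))) +
        (1 - t) * r * (Phi α s * (Phi α (ζ0 * s) * Phi α ((ω0 + h) * s))) +
        t * r * (Phi α s * (Phi α ((ζ0 + h) * s) * Phi α ((ω0 + h) * s)))) +
        M * h ^ 2 / 8 * (s ^ 2 * (|Phi α s| * |Phi α ((ω0 + r * h) * s)|) +
          (1 - t) * (s ^ 2 * (|Phi α s| * |Phi α (ζ0 * s)|)) +
          t * (s ^ 2 * (|Phi α s| * |Phi α ((ζ0 + h) * s)|)))) := by
    unfold H6
    apply intervalIntegral.integral_mono_on (by norm_num) (int_phi3 hα hz hw)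
    · exact ((((i00.const_mul _).add (i10.const_mul _)).add (i01.const_mul _)).add
        (i11.const_mul _)).add (((j0.add (j1.const_mul _)).add (j2.const_mul _)).const_mul _)
    · intro s hs
      have hs0 : 0 ≤ s := hs.1
      have b1 := phi_interp hα hM (x0 := ζ0 * s) (x1 := (ζ0 + h) * s) (t := t)
        (by positivity) (mul_le_mul_of_nonneg_right (by linarith) hs0) ht0 ht1
      have b2 := phi_interp hα hM (x0 := ω0 * s) (x1 := (ω0 + h) * s) (t := r)
        (by positivity) (mul_le_mul_of_nonneg_right (by linarith) hs0) hr0 hr1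
      rw [show (1 - t) * (ζ0 * s) + t * ((ζ0 + h) * s) = (ζ0 + t * h) * s by ring,
        show M * ((ζ0 + h) * s - ζ0 * s) ^ 2 / 8 = M * h ^ 2 / 8 * s ^ 2 by ring] at b1
      rw [show (1 - r) * (ω0 * s) + r * ((ω0 + h) * s) = (ω0 + r * h) * s by ring,
        show M * ((ω0 + h) * s - ω0 * s) ^ 2 / 8 = M * h ^ 2 / 8 * s ^ 2 by ring] at b2
      have b3 : |(1 - t) * Phi α (ζ0 * s) + t * Phi α ((ζ0 + h) * s)| ≤
          (1 - t) * |Phi α (ζ0 * s)| + t * |Phi α ((ζ0 + h) * s)| := by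
        refine (abs_add_le _ _).trans ?_
        rw [abs_mul, abs_mul, abs_of_nonneg ht0, abs_of_nonneg (by linarith : 0 ≤ 1 - t)]
      have := prod_sub_le (f := Phi α s) b1 b2 b3
      refine this.trans (le_of_eq ?_)
      ring
  refine key.trans ?_
  rw [intervalIntegral.integral_add (((((i00.const_mul _).add (i10.const_mul _)).add
      (i01.const_mul _)).add (i11.const_mul _)))
      (((j0.add (j1.const_mul _)).add (j2.const_mul _)).const_mul _),
    intervalIntegral.integral_add ((((i00.const_mul _).add (i10.const_mul _)).add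
      (i01.const_mul _))) (i11.const_mul _),
    intervalIntegral.integral_add (((i00.const_mul _).add (i10.const_mul _))) (i01.const_mul _),
    intervalIntegral.integral_add ((i00.const_mul _)) (i10.const_mul _),
    intervalIntegral.integral_const_mul, intervalIntegral.integral_const_mul,
    intervalIntegral.integral_const_mul, intervalIntegral.integral_const_mul,
    intervalIntegral.integral_const_mul,
    intervalIntegral.integral_add (j0.add (j1.const_mul _)) (j2.const_mul _),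
    intervalIntegral.integral_add j0 (j1.const_mul _),
    intervalIntegral.integral_const_mul, intervalIntegral.integral_const_mul]
  unfold H6
  have hc : 0 ≤ M * h ^ 2 / 8 := by positivity
  have hfin : M * h ^ 2 / 8 * ((∫ s in (0 : ℝ)..6, s ^ 2 * (|Phi α s| *
      |Phi α ((ω0 + r * h) * s)|)) + (1 - t) * (∫ s in (0 : ℝ)..6, s ^ 2 * (|Phi α s| *
      |Phi α (ζ0 * s)|)) + t * (∫ s in (0 : ℝ)..6, s ^ 2 * (|Phi α s| *
      |Phi α ((ζ0 + h) * s)|))) ≤ M * h ^ 2 / 8 * Q * (ρ1 + ρ2) := by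
    have h1 := mul_le_mul_of_nonneg_left w1 (by linarith : 0 ≤ 1 - t)
    have h2 := mul_le_mul_of_nonneg_left w2 ht0
    calc _ ≤ M * h ^ 2 / 8 * (Q * ρ2 + (1 - t) * (Q * ρ1) + t * (Q * ρ1)) :=
          mul_le_mul_of_nonneg_left (by linarith) hc
      _ = _ := by ring
  linarith

end LpSec.G3
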