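import Pool.Agent.Lib.MP_1dbab3_gt.G3.Def

/-!
Row G3-A4: the tail beyond `6`. `|Φ(s)Φ(zs)| ≤ (lam Φ(s)² + Φ(zs)²/lam)/2`, `exists_lam'` with `A = T2 α 6`,
`B = T2 α (6z) / z ≤ (T + V) / z0`; `T2 α (6 z0) = T2 α 6 + V6 α z0` (`T2_sub`), `sq_scale`, `T2_anti`.
-/

open Real MeasureTheory Set Filter Topology

namespace LpSec.G3

variable {α : ℝ}

theorem exists_lam' {A B X : ℝ} (hA : 0 ≤ A) (hB : 0 ≤ B) (hX : 0 < X) (h : A * B ≤ X ^ 2) :
    ∃ l, 0 < l ∧ (l * A + B / l) / 2 ≤ X := by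
  rcases eq_or_lt_of_le hA with rfl | hA
  · refine ⟨(B + 1) / X, by positivity, ?_⟩
    have h1 : B / ((B + 1) / X) ≤ X := by
      rw [div_div_eq_mul_div, div_le_iff₀ (by positivity)]
      nlinarith
    linarith
  · refine ⟨X / A, by positivity, ?_⟩
    have h1 : B / (X / A) ≤ X := by
      rw [div_div_eq_mul_div, div_le_iff₀ hX]
      nlinarith
    have h2 : X / A * A = X := by field_simp
    linarith

theorem prod3_integrable (hα : 1 < α) {z w : ℝ} (hz : 0 < z) (hw : 0 ≤ w) :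
    IntegrableOn (fun s => Phi α s * (Phi α (z * s) * Phi α (w * s))) (Ioi 0) := by
  have h := prod_integrable_pair hα (x := ![1, z, w]) (fun i => by
    fin_cases i
    · exact zero_le_one
    · exact hz.le
    · exact hw) (j := 0) (k := 1) (by decide) (by simp) (by simpa using hz)
  refine h.congr_fun (fun s _ => ?_) measurableSet_Ioi
  simp [Fin.prod_univ_three, mul_assoc]

theorem tail3 (hα : 1 < α) {z z0 w κ T V X : ℝ} (hz0 : 0 < z0) (hz : z0 ≤ z) (hz1 : z ≤ 1)
    (hw : 0 < w) (hκ0 : 0 ≤ κ) (hκ : ∀ s, 6 ≤ s → |Phi α (w * s)| ≤ κ) (hT : T2 α 6 ≤ T)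
    (hV : V6 α z0 ≤ V) (hX : 0 < X) (hX2 : T * (T + V) ≤ X ^ 2 * z0) :
    |∫ s in Ioi (6 : ℝ), Phi α s * (Phi α (z * s) * Phi α (w * s))| ≤ κ * X := by
  have hzp : 0 < z := hz0.trans_le hz
  have hz01 : z0 ≤ 1 := hz.trans hz1
  have hT0 : 0 ≤ T := (T2_nonneg α 6).trans hT
  have hVeq : V6 α z0 = T2 α (6 * z0) - T2 α 6 := by
    unfold V6
    exact T2_sub hα (by positivity) (by linarith)
  have hV0 : 0 ≤ V6 α z0 := by
    rw [hVeq, sub_nonneg]
    exact T2_anti hα (by positivity) (by linarith)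
  have hB0 : 0 ≤ (T + V) / z0 := div_nonneg (by linarith) hz0.le
  have hAB : T2 α 6 * ((T + V) / z0) ≤ X ^ 2 := by
    refine (mul_le_mul_of_nonneg_right hT hB0).trans ?_
    rw [← mul_div_assoc, div_le_iff₀ hz0]
    exact hX2
  obtain ⟨l, hl, hlX⟩ := exists_lam' (T2_nonneg α 6) hB0 hX hAB
  have i1 := Phi_sq_integrable_Ioi hα (t := 6) (by norm_num)
  have i2 := sq_scale_integrable hα hzp (a := 6) (by norm_num)
  have hint : IntegrableOn (fun s => κ * ((l * Phi α s ^ 2 + Phi α (z * s) ^ 2 / l) / 2))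
      (Ioi 6) := (((i1.const_mul l).add (i2.div_const l)).div_const 2).const_mul κ
  have h1 : |∫ s in Ioi (6 : ℝ), Phi α s * (Phi α (z * s) * Phi α (w * s))| ≤
      ∫ s in Ioi (6 : ℝ), κ * ((l * Phi α s ^ 2 + Phi α (z * s) ^ 2 / l) / 2) := by
    rw [← Real.norm_eq_abs]
    refine (norm_integral_le_integral_norm _).trans ?_
    refine setIntegral_mono_on ((prod3_integrable hα hzp hw.le).mono_set
      (Ioi_subset_Ioi (by norm_num))).norm hint measurableSet_Ioi fun s hs => ?_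
    have hs6 : (6 : ℝ) ≤ s := le_of_lt hs
    rw [Real.norm_eq_abs, abs_mul, abs_mul]
    have e1 : |Phi α s| * |Phi α (z * s)| ≤ (l * Phi α s ^ 2 + Phi α (z * s) ^ 2 / l) / 2 := by
      rw [← sq_abs (Phi α s), ← sq_abs (Phi α (z * s))]
      set a := |Phi α s|
      set b := |Phi α (z * s)|
      have e2 : (l * a ^ 2 + b ^ 2 / l) / 2 - a * b = (l * a - b) ^ 2 / (2 * l) := by
        field_simp
        ring
      have e3 : 0 ≤ (l * a - b) ^ 2 / (2 * l) := by positivity
      linarith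
    have e4 := hκ s hs6
    calc |Phi α s| * (|Phi α (z * s)| * |Phi α (w * s)|)
        = (|Phi α s| * |Phi α (z * s)|) * |Phi α (w * s)| := by ring
      _ ≤ ((l * Phi α s ^ 2 + Phi α (z * s) ^ 2 / l) / 2) * κ :=
          mul_le_mul e1 e4 (abs_nonneg _) ((mul_nonneg (abs_nonneg _) (abs_nonneg _)).trans e1)
      _ = _ := by ring
  refine h1.trans ?_
  rw [integral_const_mul]
  refine mul_le_mul_of_nonneg_left ?_ hκ0
  rw [integral_div, integral_add (i1.const_mul l) (i2.div_const l), integral_const_mul,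
    integral_div, sq_scale α hzp]
  refine le_trans ?_ hlX
  have e5 : T2 α (z * 6) / z ≤ (T + V) / z0 := by
    refine div_le_div₀ (by linarith) ?_ hz0 hz
    have e6 := T2_anti hα (a := 6 * z0) (b := z * 6) (by positivity) (by linarith)
    linarith
  have e7 := div_le_div_of_nonneg_right e5 hl.le
  have e8 : (∫ s in Ioi (6 : ℝ), Phi α s ^ 2) = T2 α 6 := rfl
  rw [e8]
  linarith

/-- `J` in scaled form -/
theorem J_three (hα : 1 < α) {y z w : ℝ} (hy : 0 < y) (hz : 0 < z) (hw : 0 ≤ w) :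
    J α ![y, z, w] = (H6 α (z / y) (w / y) +
      ∫ s in Ioi (6 : ℝ), Phi α s * (Phi α (z / y * s) * Phi α (w / y * s))) / y := by
  have hi := prod3_integrable hα (div_pos hz hy) (div_nonneg hw hy.le)
  have h1 := intervalIntegral.integral_interval_add_Ioi hi
    (hi.mono_set (Ioi_subset_Ioi (by norm_num : (0 : ℝ) ≤ 6)))
  unfold H6
  rw [h1]
  unfold J
  have h2 := integral_comp_mul_left_Ioi
    (fun s => Phi α s * (Phi α (z / y * s) * Phi α (w / y * s))) 0 hy
  rw [mul_zero, smul_eq_mul] at h2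
  rw [div_eq_inv_mul, ← h2]
  refine setIntegral_congr_fun measurableSet_Ioi fun s _ => ?_
  have e1 : z / y * (y * s) = z * s := by field_simp
  have e2 : w / y * (y * s) = w * s := by field_simp
  simp only [e1, e2]
  simp [Fin.prod_univ_three, mul_assoc]

end LpSec.G3
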