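import Pool.Agent.Lib.MP_1dbab3_gt.G3.A3
import Pool.Agent.Lib.MP_1dbab3_gt.G3.A4

/-!
Row G3-A5: one box of the grid. `1/y = 1 + ζ + ω =: T`, `(2c - T)/c² ≤ 1/T`; the function
`A1 (2c - (1 + ζ + ω))/c²` is affine and the bound of `H6` is bilinear, so it suffices to compare at the corners.
-/

open Real MeasureTheory Set Filter Topology

namespace LpSec.G3

variable {α : ℝ}

theorem box_lt (hα : 1 < α) {y z w : ℝ} (hy : 0 < y) (hz : 0 < z) (hw : 0 < w) (hzy : z ≤ y)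
    (hs : y + z + w = 1)
    {M Q ρ1 ρ2 h ζ0 ω0 κ T V X A1 e c b00 b10 b01 b11 : ℝ} (hM : mom α 2 / 2 ≤ M) (hh : 0 < h)
    (hζ0 : 0 < ζ0) (hω0 : 0 < ω0) (hζ1 : ζ0 + h ≤ 1) (hω1 : ω0 + h ≤ 1)
    (hζ : ζ0 ≤ z / y) (hζ' : z / y ≤ ζ0 + h) (hω : ω0 ≤ w / y) (hω' : w / y ≤ ω0 + h)
    (hQ : Q6 α ≤ Q) (hρ1 : 0 < ρ1) (hρ1' : 1 ≤ ρ1 ^ 2 * ζ0 ^ 3)
    (hρ2 : 0 < ρ2) (hρ2' : 1 ≤ ρ2 ^ 2 * ω0 ^ 3)
    (hκ0 : 0 ≤ κ) (hκ : ∀ s, 6 ≤ s → |Phi α (w / y * s)| ≤ κ) (hT : T2 α 6 ≤ T)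
    (hV : V6 α ζ0 ≤ V) (hX : 0 < X) (hX2 : T * (T + V) ≤ X ^ 2 * ζ0)
    (hA : A1 < AA α) (hA0 : 0 < A1) (hc : c = 1 + ζ0 + ω0 + h)
    (he : M * h ^ 2 / 8 * Q * (ρ1 + ρ2) + κ * X ≤ e)
    (h00 : H6 α ζ0 ω0 ≤ b00) (h10 : H6 α (ζ0 + h) ω0 ≤ b10) (h01 : H6 α ζ0 (ω0 + h) ≤ b01)
    (h11 : H6 α (ζ0 + h) (ω0 + h) ≤ b11)
    (k00 : b00 + e ≤ A1 * (c + h) / c ^ 2) (k10 : b10 + e ≤ A1 * c / c ^ 2)
    (k01 : b01 + e ≤ A1 * c / c ^ 2) (k11 : b11 + e ≤ A1 * (c - h) / c ^ 2) :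
    J α ![y, z, w] < AA α := by
  have hT1 : y * (1 + z / y + w / y) = 1 := by
    have e1 : y * (1 + z / y + w / y) = y + z + w := by field_simp
    rw [e1, hs]
  set t : ℝ := (z / y - ζ0) / h with ht
  set r : ℝ := (w / y - ω0) / h with hr
  have ht0 : 0 ≤ t := div_nonneg (by linarith) hh.le
  have ht1 : t ≤ 1 := by rw [ht, div_le_one hh]; linarith
  have hr0 : 0 ≤ r := div_nonneg (by linarith) hh.le
  have hr1 : r ≤ 1 := by rw [hr, div_le_one hh]; linarith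
  have eζ : z / y = ζ0 + t * h := by rw [ht]; field_simp; ring
  have eω : w / y = ω0 + r * h := by rw [hr]; field_simp; ring
  have hz1 : z / y ≤ 1 := by rw [div_le_one hy]; exact hzy
  have key := H6_interp hα hM hh.le hζ0 hω0 hζ1 hω1 ht0 ht1 hr0 hr1 hQ hρ1 hρ1' hρ2 hρ2'
  have tail := tail3 hα hζ0 hζ hz1 (div_pos hw hy) hκ0 hκ hT hV hX hX2
  rw [← eζ, ← eω] at key
  have tail' := (abs_le.1 tail).2
  rw [J_three hα hy hz hw.le, div_lt_iff₀ hy]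
  set I := ∫ s in Ioi (6 : ℝ), Phi α s * (Phi α (z / y * s) * Phi α (w / y * s)) with hI
  have hc0 : 0 < c := by rw [hc]; positivity
  have w00 : 0 ≤ (1 - t) * (1 - r) := mul_nonneg (by linarith) (by linarith)
  have w10 : 0 ≤ t * (1 - r) := mul_nonneg ht0 (by linarith)
  have w01 : 0 ≤ (1 - t) * r := mul_nonneg (by linarith) hr0
  have w11 : 0 ≤ t * r := mul_nonneg ht0 hr0
  have g00 := mul_le_mul_of_nonneg_left (show H6 α ζ0 ω0 + e ≤ A1 * (c + h) / c ^ 2 by linarith) w00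
  have g10 := mul_le_mul_of_nonneg_left
    (show H6 α (ζ0 + h) ω0 + e ≤ A1 * c / c ^ 2 by linarith) w10
  have g01 := mul_le_mul_of_nonneg_left
    (show H6 α ζ0 (ω0 + h) + e ≤ A1 * c / c ^ 2 by linarith) w01
  have g11 := mul_le_mul_of_nonneg_left
    (show H6 α (ζ0 + h) (ω0 + h) + e ≤ A1 * (c - h) / c ^ 2 by linarith) w11
  have h1 : H6 α (z / y) (w / y) + I ≤ A1 * (2 * c - (1 + z / y + w / y)) / c ^ 2 := by
    have e2 : A1 * (2 * c - (1 + z / y + w / y)) / c ^ 2 =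
        (1 - t) * (1 - r) * (A1 * (c + h) / c ^ 2) + t * (1 - r) * (A1 * c / c ^ 2) +
          (1 - t) * r * (A1 * c / c ^ 2) + t * r * (A1 * (c - h) / c ^ 2) := by
      rw [eζ, eω]
      have e3 : 1 + (ζ0 + t * h) + (ω0 + r * h) = c - h + t * h + r * h := by rw [hc]; ring
      rw [e3]
      ring
    rw [e2]
    linarith
  have h2 : (2 * c - (1 + z / y + w / y)) / c ^ 2 ≤ y := by
    rw [div_le_iff₀ (by positivity)]
    set T' := 1 + z / y + w / y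
    have e4 : 2 * c - T' = y * ((2 * c - T') * T') := by
      have : y * ((2 * c - T') * T') = (2 * c - T') * (y * T') := by ring
      rw [this, hT1, mul_one]
    rw [e4]
    refine mul_le_mul_of_nonneg_left ?_ hy.le
    have e5 := sq_nonneg (c - T')
    have e6 : (c - T') ^ 2 = c ^ 2 - (2 * c - T') * T' := by ring
    linarith only [e5, e6]
  have h3 : A1 * (2 * c - (1 + z / y + w / y)) / c ^ 2 ≤ A1 * y := by
    rw [mul_div_assoc]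
    exact mul_le_mul_of_nonneg_left h2 hA0.le
  have h4 : A1 * y < AA α * y := mul_lt_mul_of_pos_right hA hy
  linarith

end LpSec.G3
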