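import Pool.Agent.Lib.MP_1dbab3_gt.G3.Def

/-!
Row G3-B1: `H6` at a node from the two polynomials. Let `f = Phi α`, `a = altE A / SS`, `b = altE B / SS`,
`g = (1-l) a + l b`, `d = b - a`, `|f - g| ≤ ε` on `[0, 6]`, and `f_x (s) = f (x s)` etc.
(1) with `f - g = E`: `f1 f2 f3 - g1 g2 g3 = E1 f2 f3 + (f1 - E1) E2 f3 + (f1 - E1)(f2 - E2) E3`, so
`|..| ≤ ε (|f2 f3| + |f1 f3| + |f1 f2|) + 3 ε² + ε³`, integrated `≤ ε/2 (σ σ' + σ + σ') + 18 ε² + 6 ε³`: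
`∫_0^6 |f_x f_y| ≤ ∫_0^∞ (c f_x² + f_y²/c)/2 ≤ AA/2 /√(xy) ≤ (1/2) σ_x σ_y`.
(2) `g1 g2 g3 - (1-l) a1 a2 a3 - l b1 b2 b3 = -l (1-l) (d1 d2 b3 + d1 a2 d3 + g1 d2 d3)`, `l(1-l) ≤ 1/4`,
`|a|, |b|, |g| ≤ 101/100`, `∫_0^6 |d_x d_y| ≤ D2 σ_x σ_y`.
-/

open Real MeasureTheory Set Filter Topology

namespace LpSec.G3

open LpSec.W

variable {α : ℝ}

/-- scaling of the square -/
theorem B1_scale {F : ℝ → ℝ} (hF : ContinuousOn F (Icc 0 6)) {M x σ : ℝ}
    (hM : ∫ s in (0 : ℝ)..6, F s ^ 2 ≤ M) (hx : 0 < x) (hx1 : x ≤ 1) (hσ : 1 ≤ σ ^ 2 * x) :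
    ∫ s in (0 : ℝ)..6, F (x * s) ^ 2 ≤ σ ^ 2 * M := by
  have h1 := intervalIntegral.integral_comp_mul_left (a := 0) (b := 6) (fun s => F s ^ 2) hx.ne'
  rw [h1, mul_zero, smul_eq_mul]
  have hc : ContinuousOn (fun s => F s ^ 2) (Icc 0 6) := hF.pow 2
  have h2 : ∫ s in (0 : ℝ)..(x * 6), F s ^ 2 ≤ ∫ s in (0 : ℝ)..6, F s ^ 2 := by
    refine intervalIntegral.integral_mono_interval le_rfl (by positivity) (by linarith)
      (Eventually.of_forall fun s => sq_nonneg _) (hc.intervalIntegrable_of_Icc (by norm_num))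
  have h3 : 0 ≤ ∫ s in (0 : ℝ)..6, F s ^ 2 :=
    intervalIntegral.integral_nonneg (by norm_num) fun s _ => sq_nonneg _
  have h4 : x⁻¹ ≤ σ ^ 2 := by
    rw [inv_le_iff_one_le_mul₀ hx]
    exact hσ
  have h5 : (0 : ℝ) ≤ x⁻¹ := by positivity
  calc x⁻¹ * ∫ s in (0 : ℝ)..(x * 6), F s ^ 2 ≤ x⁻¹ * ∫ s in (0 : ℝ)..6, F s ^ 2 :=
        mul_le_mul_of_nonneg_left h2 h5
    _ ≤ σ ^ 2 * ∫ s in (0 : ℝ)..6, F s ^ 2 := mul_le_mul_of_nonneg_right h4 h3
    _ ≤ σ ^ 2 * M := mul_le_mul_of_nonneg_left hM (sq_nonneg _)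

/-- Cauchy-Schwarz -/
theorem B1_cs {p q : ℝ → ℝ} (hp : ContinuousOn p (Icc 0 6)) (hq : ContinuousOn q (Icc 0 6))
    {M a b : ℝ} (ha : 0 < a) (hb : 0 < b) (h1 : ∫ s in (0 : ℝ)..6, p s ^ 2 ≤ a ^ 2 * M)
    (h2 : ∫ s in (0 : ℝ)..6, q s ^ 2 ≤ b ^ 2 * M) :
    ∫ s in (0 : ℝ)..6, |p s * q s| ≤ a * b * M := by
  have i1 : IntervalIntegrable (fun s => |p s * q s|) volume 0 6 :=
    ((hp.mul hq).abs).intervalIntegrable_of_Icc (by norm_num)
  have i2 : IntervalIntegrable (fun s => b / (2 * a) * p s ^ 2) volume 0 6 :=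
    ((hp.pow 2).const_mul _).intervalIntegrable_of_Icc (by norm_num)
  have i3 : IntervalIntegrable (fun s => a / (2 * b) * q s ^ 2) volume 0 6 :=
    ((hq.pow 2).const_mul _).intervalIntegrable_of_Icc (by norm_num)
  have h3 : ∫ s in (0 : ℝ)..6, |p s * q s| ≤
      ∫ s in (0 : ℝ)..6, (b / (2 * a) * p s ^ 2 + a / (2 * b) * q s ^ 2) := by
    refine intervalIntegral.integral_mono_on (by norm_num) i1 (i2.add i3) fun s _ => ?_
    have e1 : b / (2 * a) * p s ^ 2 + a / (2 * b) * q s ^ 2 - |p s * q s| =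
        (b * |p s| - a * |q s|) ^ 2 / (2 * a * b) := by
      rw [abs_mul, ← sq_abs (p s), ← sq_abs (q s)]
      field_simp
      ring
    have e2 : 0 ≤ (b * |p s| - a * |q s|) ^ 2 / (2 * a * b) := by positivity
    linarith
  rw [intervalIntegral.integral_add i2 i3, intervalIntegral.integral_const_mul,
    intervalIntegral.integral_const_mul] at h3
  have g1 := mul_le_mul_of_nonneg_left h1 (show 0 ≤ b / (2 * a) by positivity)
  have g2 := mul_le_mul_of_nonneg_left h2 (show 0 ≤ a / (2 * b) by positivity)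
  have e3 : b / (2 * a) * (a ^ 2 * M) + a / (2 * b) * (b ^ 2 * M) = a * b * M := by
    field_simp
    ring
  linarith

/-- the pointwise bound -/
theorem B1_pt {f1 f2 f3 a1 a2 a3 b1 b2 b3 l ε : ℝ} (hl : 0 ≤ l) (hl1 : l ≤ 1) (hε : 0 ≤ ε)
    (hf1 : |f1| ≤ 1) (hf2 : |f2| ≤ 1) (hf3 : |f3| ≤ 1)
    (h1 : |f1 - ((1 - l) * a1 + l * b1)| ≤ ε) (h2 : |f2 - ((1 - l) * a2 + l * b2)| ≤ ε)
    (h3 : |f3 - ((1 - l) * a3 + l * b3)| ≤ ε) (ha1 : |a1| ≤ 101 / 100) (ha2 : |a2| ≤ 101 / 100)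
    (hb1 : |b1| ≤ 101 / 100) (hb3 : |b3| ≤ 101 / 100) :
    f1 * (f2 * f3) ≤ (1 - l) * (a1 * (a2 * a3)) + l * (b1 * (b2 * b3)) +
      ε * (|f2 * f3| + |f1 * f3| + |f1 * f2|) + (3 * ε ^ 2 + ε ^ 3) +
      101 / 400 * (|(b1 - a1) * (b2 - a2)| + |(b1 - a1) * (b3 - a3)| +
        |(b2 - a2) * (b3 - a3)|) := by
  set g1 := (1 - l) * a1 + l * b1 with hg1
  set g2 := (1 - l) * a2 + l * b2 with hg2
  set g3 := (1 - l) * a3 + l * b3 with hg3
  set E1 := f1 - g1 with hE1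
  set E2 := f2 - g2 with hE2
  set E3 := f3 - g3 with hE3
  have e1 : f1 * (f2 * f3) = g1 * (g2 * g3) + E1 * (f2 * f3) + E2 * (f1 * f3) + E3 * (f1 * f2) -
      E1 * E2 * f3 - E1 * E3 * f2 - E2 * E3 * f1 + E1 * E2 * E3 := by
    rw [hE1, hE2, hE3]
    ring
  have e2 : g1 * (g2 * g3) = (1 - l) * (a1 * (a2 * a3)) + l * (b1 * (b2 * b3)) -
      l * (1 - l) * ((b1 - a1) * (b2 - a2) * b3 + (b1 - a1) * (b3 - a3) * a2 +
        (b2 - a2) * (b3 - a3) * g1) := by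
    rw [hg1, hg2, hg3]
    ring
  have k1 : E1 * (f2 * f3) ≤ ε * |f2 * f3| :=
    (le_abs_self _).trans (by rw [abs_mul]; exact mul_le_mul_of_nonneg_right h1 (abs_nonneg _))
  have k2 : E2 * (f1 * f3) ≤ ε * |f1 * f3| :=
    (le_abs_self _).trans (by rw [abs_mul]; exact mul_le_mul_of_nonneg_right h2 (abs_nonneg _))
  have k3 : E3 * (f1 * f2) ≤ ε * |f1 * f2| :=
    (le_abs_self _).trans (by rw [abs_mul]; exact mul_le_mul_of_nonneg_right h3 (abs_nonneg _))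
  have m3 : ∀ {p q r : ℝ}, |p| ≤ ε → |q| ≤ ε → |r| ≤ 1 → |p * q * r| ≤ ε ^ 2 := by
    intro p q r hp hq hr
    rw [abs_mul, abs_mul]
    calc |p| * |q| * |r| ≤ ε * ε * 1 :=
          mul_le_mul (mul_le_mul hp hq (abs_nonneg _) hε) hr (abs_nonneg _) (by positivity)
      _ = ε ^ 2 := by ring
  have k4 : -(E1 * E2 * f3) ≤ ε ^ 2 := (neg_le_abs _).trans (m3 h1 h2 hf3)
  have k5 : -(E1 * E3 * f2) ≤ ε ^ 2 := (neg_le_abs _).trans (m3 h1 h3 hf2)
  have k6 : -(E2 * E3 * f1) ≤ ε ^ 2 := (neg_le_abs _).trans (m3 h2 h3 hf1)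
  have k7 : E1 * E2 * E3 ≤ ε ^ 3 := by
    refine (le_abs_self _).trans ?_
    rw [abs_mul, abs_mul]
    calc |E1| * |E2| * |E3| ≤ ε * ε * ε :=
          mul_le_mul (mul_le_mul h1 h2 (abs_nonneg _) hε) h3 (abs_nonneg _) (by positivity)
      _ = ε ^ 3 := by ring
  have hg1' : |g1| ≤ 101 / 100 := by
    have q1 := abs_add_le ((1 - l) * a1) (l * b1)
    rw [abs_mul, abs_mul, abs_of_nonneg hl, abs_of_nonneg (by linarith : (0 : ℝ) ≤ 1 - l)] at q1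
    have q2 := mul_le_mul_of_nonneg_left ha1 (by linarith : (0 : ℝ) ≤ 1 - l)
    have q3 := mul_le_mul_of_nonneg_left hb1 hl
    linarith
  have m4 : ∀ {p r : ℝ}, |r| ≤ 101 / 100 → -(101 / 100 * |p|) ≤ p * r := by
    intro p r hr
    have q1 := neg_abs_le (p * r)
    rw [abs_mul] at q1
    have q2 := mul_le_mul_of_nonneg_left hr (abs_nonneg p)
    linarith
  have n1 := m4 (p := (b1 - a1) * (b2 - a2)) hb3
  have n2 := m4 (p := (b1 - a1) * (b3 - a3)) ha2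
  have n3 := m4 (p := (b2 - a2) * (b3 - a3)) hg1'
  have hll : 0 ≤ l * (1 - l) := mul_nonneg hl (by linarith)
  have hll' : l * (1 - l) ≤ 1 / 4 := by nlinarith [sq_nonneg (l - 1 / 2)]
  set S := |(b1 - a1) * (b2 - a2)| + |(b1 - a1) * (b3 - a3)| + |(b2 - a2) * (b3 - a3)| with hS
  have hS0 : 0 ≤ S := by positivity
  have n4 : -(101 / 100 * S) ≤ (b1 - a1) * (b2 - a2) * b3 + (b1 - a1) * (b3 - a3) * a2 +
        (b2 - a2) * (b3 - a3) * g1 := by
    rw [hS]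
    linarith
  have n5 := mul_le_mul_of_nonneg_left n4 hll
  have n6 : l * (1 - l) * (101 / 100 * S) ≤ 1 / 4 * (101 / 100 * S) :=
    mul_le_mul_of_nonneg_right hll' (by positivity)
  have n7 : -(l * (1 - l) * ((b1 - a1) * (b2 - a2) * b3 + (b1 - a1) * (b3 - a3) * a2 +
        (b2 - a2) * (b3 - a3) * g1)) ≤ 101 / 400 * S := by
    have : l * (1 - l) * (-(101 / 100 * S)) = -(l * (1 - l) * (101 / 100 * S)) := by ring
    rw [this] at n5
    linarith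
  rw [e1, e2]
  linarith

/-- the integrated bound -/
theorem B1_int {f1 f2 f3 a1 a2 a3 b1 b2 b3 : ℝ → ℝ} {l ε β P1 P2 P3 Q1 Q2 Q3 : ℝ} (hl : 0 ≤ l)
    (hl1 : l ≤ 1) (hε : 0 ≤ ε)
    (cf1 : ContinuousOn f1 (Icc 0 6)) (cf2 : ContinuousOn f2 (Icc 0 6))
    (cf3 : ContinuousOn f3 (Icc 0 6)) (ca1 : ContinuousOn a1 (Icc 0 6))
    (ca2 : ContinuousOn a2 (Icc 0 6)) (ca3 : ContinuousOn a3 (Icc 0 6))
    (cb1 : ContinuousOn b1 (Icc 0 6)) (cb2 : ContinuousOn b2 (Icc 0 6))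
    (cb3 : ContinuousOn b3 (Icc 0 6))
    (hpt : ∀ s ∈ Icc (0 : ℝ) 6, f1 s * (f2 s * f3 s) ≤ (1 - l) * (a1 s * (a2 s * a3 s)) +
      l * (b1 s * (b2 s * b3 s)) +
      ε * (|f2 s * f3 s| + |f1 s * f3 s| + |f1 s * f2 s|) + (3 * ε ^ 2 + ε ^ 3) +
      101 / 400 * (|(b1 s - a1 s) * (b2 s - a2 s)| + |(b1 s - a1 s) * (b3 s - a3 s)| +
        |(b2 s - a2 s) * (b3 s - a3 s)|))
    (hA : ∫ s in (0 : ℝ)..6, a1 s * (a2 s * a3 s) ≤ β)
    (hB : ∫ s in (0 : ℝ)..6, b1 s * (b2 s * b3 s) ≤ β)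
    (h1 : ∫ s in (0 : ℝ)..6, |f2 s * f3 s| ≤ P1) (h2 : ∫ s in (0 : ℝ)..6, |f1 s * f3 s| ≤ P2)
    (h3 : ∫ s in (0 : ℝ)..6, |f1 s * f2 s| ≤ P3)
    (k1 : ∫ s in (0 : ℝ)..6, |(b1 s - a1 s) * (b2 s - a2 s)| ≤ Q1)
    (k2 : ∫ s in (0 : ℝ)..6, |(b1 s - a1 s) * (b3 s - a3 s)| ≤ Q2)
    (k3 : ∫ s in (0 : ℝ)..6, |(b2 s - a2 s) * (b3 s - a3 s)| ≤ Q3) :
    ∫ s in (0 : ℝ)..6, f1 s * (f2 s * f3 s) ≤ β + ε * (P1 + P2 + P3) + (18 * ε ^ 2 + 6 * ε ^ 3) +
      101 / 400 * (Q1 + Q2 + Q3) := by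
  have h06 : (0 : ℝ) ≤ 6 := by norm_num
  have i0 : IntervalIntegrable (fun s => f1 s * (f2 s * f3 s)) volume 0 6 :=
    (cf1.mul (cf2.mul cf3)).intervalIntegrable_of_Icc h06
  have i1 : IntervalIntegrable (fun s => (1 - l) * (a1 s * (a2 s * a3 s))) volume 0 6 :=
    ((ca1.mul (ca2.mul ca3)).const_mul _).intervalIntegrable_of_Icc h06
  have i2 : IntervalIntegrable (fun s => l * (b1 s * (b2 s * b3 s))) volume 0 6 :=
    ((cb1.mul (cb2.mul cb3)).const_mul _).intervalIntegrable_of_Icc h06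
  have i3 : IntervalIntegrable (fun s => |f2 s * f3 s|) volume 0 6 :=
    ((cf2.mul cf3).abs).intervalIntegrable_of_Icc h06
  have i4 : IntervalIntegrable (fun s => |f1 s * f3 s|) volume 0 6 :=
    ((cf1.mul cf3).abs).intervalIntegrable_of_Icc h06
  have i5 : IntervalIntegrable (fun s => |f1 s * f2 s|) volume 0 6 :=
    ((cf1.mul cf2).abs).intervalIntegrable_of_Icc h06
  have i6 : IntervalIntegrable (fun s => |(b1 s - a1 s) * (b2 s - a2 s)|) volume 0 6 :=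
    (((cb1.sub ca1).mul (cb2.sub ca2)).abs).intervalIntegrable_of_Icc h06
  have i7 : IntervalIntegrable (fun s => |(b1 s - a1 s) * (b3 s - a3 s)|) volume 0 6 :=
    (((cb1.sub ca1).mul (cb3.sub ca3)).abs).intervalIntegrable_of_Icc h06
  have i8 : IntervalIntegrable (fun s => |(b2 s - a2 s) * (b3 s - a3 s)|) volume 0 6 :=
    (((cb2.sub ca2).mul (cb3.sub ca3)).abs).intervalIntegrable_of_Icc h06
  have ic : IntervalIntegrable (fun _ : ℝ => 3 * ε ^ 2 + ε ^ 3) volume 0 6 :=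
    intervalIntegrable_const
  have j1 := i1.add i2
  have j2 := ((i3.add i4).add i5).const_mul ε
  have j3 := ((i6.add i7).add i8).const_mul (101 / 400)
  have hm := intervalIntegral.integral_mono_on h06 i0 (((j1.add j2).add ic).add j3) hpt
  rw [intervalIntegral.integral_add ((j1.add j2).add ic) j3,
    intervalIntegral.integral_add (j1.add j2) ic, intervalIntegral.integral_add j1 j2,
    intervalIntegral.integral_add i1 i2, intervalIntegral.integral_const_mul,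
    intervalIntegral.integral_const_mul, intervalIntegral.integral_const_mul,
    intervalIntegral.integral_const_mul,
    intervalIntegral.integral_add (i3.add i4) i5, intervalIntegral.integral_add i3 i4,
    intervalIntegral.integral_add (i6.add i7) i8, intervalIntegral.integral_add i6 i7,
    intervalIntegral.integral_const, smul_eq_mul] at hm
  have g1 := mul_le_mul_of_nonneg_left hA (by linarith : (0 : ℝ) ≤ 1 - l)
  have g2 := mul_le_mul_of_nonneg_left hB hl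
  have g3 := mul_le_mul_of_nonneg_left (add_le_add (add_le_add h1 h2) h3) hε
  linarith

theorem H6_node (hα : 1 < α) (hAA : AA α ≤ 1) {A B : List ℕ} {l ε D2 β x y σx σy : ℝ} (hl : 0 ≤ l)
    (hl1 : l ≤ 1) (hε : 0 ≤ ε)
    (hP : ∀ s, 0 ≤ s → s ≤ 6 → |Phi α s - ((1 - l) * altE A s + l * altE B s) / SS| ≤ ε)
    (hA : ∀ s, 0 ≤ s → s ≤ 6 → |altE A s / SS| ≤ 101 / 100)
    (hB : ∀ s, 0 ≤ s → s ≤ 6 → |altE B s / SS| ≤ 101 / 100)
    (hD : ∫ s in (0 : ℝ)..6, ((altE B s - altE A s) / SS) ^ 2 ≤ D2)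
    (hx : 0 < x) (hx1 : x ≤ 1) (hy : 0 < y) (hy1 : y ≤ 1)
    (hσx : 1 ≤ σx) (hσx' : 1 ≤ σx ^ 2 * x) (hσy : 1 ≤ σy) (hσy' : 1 ≤ σy ^ 2 * y)
    (hβA : ∫ s in (0 : ℝ)..6, altE A s / SS * (altE A (x * s) / SS * (altE A (y * s) / SS)) ≤ β)
    (hβB : ∫ s in (0 : ℝ)..6, altE B s / SS * (altE B (x * s) / SS * (altE B (y * s) / SS)) ≤ β) :
    H6 α x y ≤ β + ε / 2 * (σx * σy + σx + σy) + (18 * ε ^ 2 + 6 * ε ^ 3) +
      26 / 100 * D2 * (σx * σy + σx + σy) := by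
  have h06 : (0 : ℝ) ≤ 6 := by norm_num
  have hx0 : 0 < σx := by linarith
  have hy0 : 0 < σy := by linarith
  -- the maps `s ↦ x s`
  have mx : ∀ {z : ℝ}, 0 < z → z ≤ 1 → MapsTo (fun s : ℝ => z * s) (Icc 0 6) (Icc 0 6) := by
    intro z hz hz1 s hs
    refine ⟨mul_nonneg hz.le hs.1, ?_⟩
    calc z * s ≤ 1 * s := mul_le_mul_of_nonneg_right hz1 hs.1
      _ ≤ 6 := by linarith [hs.2]
  have cF : ContinuousOn (Phi α) (Icc 0 6) :=
    (Phi_continuousOn hα).mono Icc_subset_Ici_self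
  have cFz : ∀ {z : ℝ}, 0 < z → z ≤ 1 → ContinuousOn (fun s => Phi α (z * s)) (Icc 0 6) := by
    intro z hz hz1
    exact cF.comp (continuous_const.mul continuous_id).continuousOn (mx hz hz1)
  have cA : Continuous (fun s => altE A s / SS) := (altE_continuous A).div_const _
  have cB : Continuous (fun s => altE B s / SS) := (altE_continuous B).div_const _
  have cz : ∀ z : ℝ, Continuous (fun s : ℝ => z * s) := fun z =>
    continuous_const.mul continuous_id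
  -- the squares
  have hF2 : ∫ s in (0 : ℝ)..6, Phi α s ^ 2 ≤ 1 / 2 := by
    rw [T2_sub hα le_rfl h06, T2_zero hα]
    have := T2_nonneg α 6
    linarith
  have hD2 : ∫ s in (0 : ℝ)..6, (altE B s / SS - altE A s / SS) ^ 2 ≤ D2 := by
    refine le_trans (le_of_eq ?_) hD
    congr 1
    funext s
    ring
  have cD : Continuous (fun s => altE B s / SS - altE A s / SS) := cB.sub cA
  have sFx := B1_scale cF hF2 hx hx1 hσx'
  have sFy := B1_scale cF hF2 hy hy1 hσy'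
  have sDx := B1_scale (F := fun s => altE B s / SS - altE A s / SS) cD.continuousOn hD2 hx hx1 hσx'
  have sDy := B1_scale (F := fun s => altE B s / SS - altE A s / SS) cD.continuousOn hD2 hy hy1 hσy'
  have one2 : ∀ M : ℝ, M = 1 ^ 2 * M := fun M => by ring
  have p1 := B1_cs (cFz hx hx1) (cFz hy hy1) hx0 hy0 sFx sFy
  have p2 := B1_cs cF (cFz hy hy1) one_pos hy0 (hF2.trans (le_of_eq (one2 _))) sFy
  have p3 := B1_cs cF (cFz hx hx1) one_pos hx0 (hF2.trans (le_of_eq (one2 _))) sFx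
  have q1 := B1_cs cD.continuousOn (cD.comp (cz x)).continuousOn one_pos hx0
    (hD2.trans (le_of_eq (one2 _))) sDx
  have q2 := B1_cs cD.continuousOn (cD.comp (cz y)).continuousOn one_pos hy0
    (hD2.trans (le_of_eq (one2 _))) sDy
  have q3 := B1_cs (cD.comp (cz x)).continuousOn (cD.comp (cz y)).continuousOn hx0 hy0 sDx sDy
  have hP' : ∀ s, 0 ≤ s → s ≤ 6 →
      |Phi α s - ((1 - l) * (altE A s / SS) + l * (altE B s / SS))| ≤ ε := by
    intro s hs hs6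
    refine le_trans (le_of_eq ?_) (hP s hs hs6)
    congr 1
    ring
  have hm := B1_int (f1 := Phi α) (f2 := fun s => Phi α (x * s)) (f3 := fun s => Phi α (y * s))
    (a1 := fun s => altE A s / SS) (a2 := fun s => altE A (x * s) / SS)
    (a3 := fun s => altE A (y * s) / SS) (b1 := fun s => altE B s / SS)
    (b2 := fun s => altE B (x * s) / SS) (b3 := fun s => altE B (y * s) / SS) hl hl1 hε
    cF (cFz hx hx1) (cFz hy hy1) cA.continuousOn (cA.comp (cz x)).continuousOn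
    (cA.comp (cz y)).continuousOn cB.continuousOn (cB.comp (cz x)).continuousOn
    (cB.comp (cz y)).continuousOn (fun s hs => by
      have mx' := mx hx hx1 hs
      have my' := mx hy hy1 hs
      exact B1_pt hl hl1 hε (Phi_abs_le_one hα hs.1) (Phi_abs_le_one hα mx'.1)
        (Phi_abs_le_one hα my'.1) (hP' s hs.1 hs.2) (hP' _ mx'.1 mx'.2) (hP' _ my'.1 my'.2)
        (hA s hs.1 hs.2) (hA _ mx'.1 mx'.2) (hB s hs.1 hs.2) (hB _ my'.1 my'.2))
    hβA hβB p1 p2 p3 q1 q2 q3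
  have hD0 : 0 ≤ D2 := (intervalIntegral.integral_nonneg h06 fun s _ => sq_nonneg _).trans hD
  unfold H6
  refine hm.trans ?_
  have t1 : 0 ≤ D2 * (σx * σy + σx + σy) := by positivity
  nlinarith

end LpSec.G3
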