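import Pool.Agent.Lib.MP_1dbab3_gt.G3.Def

/-!
Row G3-B2: weighted `L²` bounds from the polynomials: `f² = (g + E)² ≤ (1+η) g² + (1 + 1/η) E²`,
`g² ≤ (1-l) a² + l b²` (convexity), `∫_a^6 s^j ≤ 6^j (6 - a)`.
-/

open Real MeasureTheory Set Filter Topology

namespace LpSec.G3

open LpSec.W

variable {α : ℝ}

theorem B2_pt {f a b l ε η : ℝ} (hl : 0 ≤ l) (hl1 : l ≤ 1) (hη : 0 < η)
    (h : |f - ((1 - l) * a + l * b)| ≤ ε) :
    f ^ 2 ≤ (1 + η) * ((1 - l) * a ^ 2 + l * b ^ 2) + (1 + 1 / η) * ε ^ 2 := by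
  set g := (1 - l) * a + l * b with hg
  set E := f - g with hE
  have h1 : E ^ 2 ≤ ε ^ 2 := by
    rw [← sq_abs E]
    exact pow_le_pow_left₀ (abs_nonneg _) h 2
  have h2 : g ^ 2 ≤ (1 - l) * a ^ 2 + l * b ^ 2 := by
    have : (1 - l) * a ^ 2 + l * b ^ 2 - g ^ 2 = l * (1 - l) * (a - b) ^ 2 := by
      rw [hg]
      ring
    have h3 : 0 ≤ l * (1 - l) * (a - b) ^ 2 :=
      mul_nonneg (mul_nonneg hl (by linarith)) (sq_nonneg _)
    linarith
  have h3 : f ^ 2 ≤ (1 + η) * g ^ 2 + (1 + 1 / η) * E ^ 2 := by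
    have e1 : (1 + η) * g ^ 2 + (1 + 1 / η) * E ^ 2 - f ^ 2 = (η * g - E) ^ 2 / η := by
      have : f = g + E := by rw [hE]; ring
      rw [this]
      field_simp
      ring
    have : 0 ≤ (η * g - E) ^ 2 / η := by positivity
    linarith
  have h4 := mul_le_mul_of_nonneg_left h2 (by linarith : (0 : ℝ) ≤ 1 + η)
  have h5 := mul_le_mul_of_nonneg_left h1 (by positivity : (0 : ℝ) ≤ 1 + 1 / η)
  linarith

theorem sq_le (hα : 1 < α) {A B : List ℕ} {l ε η a q : ℝ} (j : ℕ) (hl : 0 ≤ l)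
    (hl1 : l ≤ 1) (hε : 0 ≤ ε) (hη : 0 < η) (ha : 0 ≤ a) (ha6 : a ≤ 6)
    (hP : ∀ s, 0 ≤ s → s ≤ 6 → |Phi α s - ((1 - l) * altE A s + l * altE B s) / SS| ≤ ε)
    (hA : ∫ s in a..6, s ^ j * (altE A s / SS) ^ 2 ≤ q)
    (hB : ∫ s in a..6, s ^ j * (altE B s / SS) ^ 2 ≤ q) :
    ∫ s in a..6, s ^ j * Phi α s ^ 2 ≤ (1 + η) * q + (1 + 1 / η) * ε ^ 2 * (6 ^ j * (6 - a)) := by
  have cF : ContinuousOn (Phi α) (Icc a 6) :=
    (Phi_continuousOn hα).mono (Icc_subset_Ici_self.trans (Ici_subset_Ici.2 ha))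
  have cA : Continuous (fun s => altE A s / SS) := (altE_continuous A).div_const _
  have cB : Continuous (fun s => altE B s / SS) := (altE_continuous B).div_const _
  have cp : Continuous (fun s : ℝ => s ^ j) := continuous_pow j
  have i0 : IntervalIntegrable (fun s => s ^ j * Phi α s ^ 2) volume a 6 :=
    (cp.continuousOn.mul (cF.pow 2)).intervalIntegrable_of_Icc ha6
  have i1 : IntervalIntegrable (fun s => s ^ j * (altE A s / SS) ^ 2) volume a 6 :=
    (cp.mul (cA.pow 2)).intervalIntegrable _ _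
  have i2 : IntervalIntegrable (fun s => s ^ j * (altE B s / SS) ^ 2) volume a 6 :=
    (cp.mul (cB.pow 2)).intervalIntegrable _ _
  have i3 := i1.const_mul ((1 + η) * (1 - l))
  have i4 := i2.const_mul ((1 + η) * l)
  have ic : IntervalIntegrable (fun _ : ℝ => (1 + 1 / η) * ε ^ 2 * 6 ^ j) volume a 6 :=
    intervalIntegrable_const
  have hm := intervalIntegral.integral_mono_on ha6 i0 ((i3.add i4).add ic) (fun s hs => by
    have hs0 : 0 ≤ s := ha.trans hs.1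
    have h1 := B2_pt (f := Phi α s) (a := altE A s / SS) (b := altE B s / SS) (ε := ε) hl hl1 hη
      (by
        refine le_trans (le_of_eq ?_) (hP s hs0 hs.2)
        congr 1
        ring)
    have h2 := mul_le_mul_of_nonneg_left h1 (pow_nonneg hs0 j)
    have h3 : s ^ j * ((1 + 1 / η) * ε ^ 2) ≤ 6 ^ j * ((1 + 1 / η) * ε ^ 2) :=
      mul_le_mul_of_nonneg_right (pow_le_pow_left₀ hs0 hs.2 j) (by positivity)
    show s ^ j * Phi α s ^ 2 ≤ (1 + η) * (1 - l) * (s ^ j * (altE A s / SS) ^ 2) +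
      (1 + η) * l * (s ^ j * (altE B s / SS) ^ 2) + (1 + 1 / η) * ε ^ 2 * 6 ^ j
    nlinarith)
  rw [intervalIntegral.integral_add (i3.add i4) ic, intervalIntegral.integral_add i3 i4,
    intervalIntegral.integral_const_mul, intervalIntegral.integral_const_mul,
    intervalIntegral.integral_const, smul_eq_mul] at hm
  have g1 := mul_le_mul_of_nonneg_left hA
    (mul_nonneg (by linarith : (0 : ℝ) ≤ 1 + η) (by linarith : (0 : ℝ) ≤ 1 - l))
  have g2 := mul_le_mul_of_nonneg_left hB (mul_nonneg (by linarith : (0 : ℝ) ≤ 1 + η) hl)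
  have e1 : (1 + η) * (1 - l) * q + (1 + η) * l * q = (1 + η) * q := by ring
  have e2 : (6 - a) * ((1 + 1 / η) * ε ^ 2 * 6 ^ j) = (1 + 1 / η) * ε ^ 2 * (6 ^ j * (6 - a)) := by
    ring
  linarith

end LpSec.G3
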