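import Pool.Agent.Lib.MP_1dbab3_gt.G3.Def

/-!
Row G3-B3: soundness of the integral checks. `altE (sc j p) x = altE p (j x)`, substitution `s = N t`.
-/

open Real MeasureTheory Set Filter Topology

namespace LpSec.G3

open LpSec.W

/-- coefficients of `x ↦ p (j x)` -/
def sc (j : ℕ) : List ℕ → List ℕ
  | [] => []
  | a :: t => a :: (sc j t).map (fun b => Nat.mul j b)

theorem altE_sc (j : ℕ) : ∀ (p : List ℕ) (x : ℝ), altE (sc j p) x = altE p (j * x)
  | [], x => rfl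
  | a :: t, x => by
    have h1 : (sc j t).map (fun b => Nat.mul j b) = (sc j t).map (j * ·) := rfl
    rw [sc, h1, altE, altE, altE_map, altE_sc j t x]
    ring

theorem SS_pos : 0 < SS := by unfold SS; norm_num

theorem three_sound {Bs L N a b v : ℕ} {p : List ℕ} (hN : 0 < N)
    (h : leChk Bs L 6 N 0 [sc N p, sc a p, sc b p] (Nat.mul v (10 ^ 52)) N = true) :
    ∫ s in (0 : ℝ)..6, altE p s / SS * (altE p ((a : ℝ) / N * s) / SS *
      (altE p ((b : ℝ) / N * s) / SS)) ≤ (v : ℝ) / 10 ^ 8 := by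
  have hN' : (0 : ℝ) < N := by exact_mod_cast hN
  have h1 := le_of_chk h
  simp only [List.map_cons, List.map_nil, List.prod_cons, List.prod_nil, mul_one, pow_zero,
    one_mul, altE_sc] at h1
  have h2 : ∫ s in (0 : ℝ)..6, altE p s / SS * (altE p ((a : ℝ) / N * s) / SS *
      (altE p ((b : ℝ) / N * s) / SS)) =
      N * ∫ x in (0 : ℝ)..((6 : ℕ) : ℝ) / N, (altE p (N * x) * (altE p (a * x) * altE p (b * x))) /
        SS ^ 3 := by
    have h3 := intervalIntegral.integral_comp_mul_left (a := (0 : ℝ)) (b := ((6 : ℕ) : ℝ) / N)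
      (fun s => altE p s / SS * (altE p ((a : ℝ) / N * s) / SS *
      (altE p ((b : ℝ) / N * s) / SS))) hN'.ne'
    have e1 : (N : ℝ) * (((6 : ℕ) : ℝ) / N) = 6 := by
      rw [mul_div_cancel₀ _ hN'.ne']; norm_num
    rw [mul_zero, e1, smul_eq_mul] at h3
    rw [← mul_right_inj' (inv_ne_zero hN'.ne'), ← h3, ← mul_assoc, inv_mul_cancel₀ hN'.ne', one_mul]
    refine intervalIntegral.integral_congr fun x _ => ?_
    have e2 : (a : ℝ) / N * (N * x) = a * x := by field_simp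
    have e3 : (b : ℝ) / N * (N * x) = b * x := by field_simp
    rw [e2, e3]
    ring
  rw [h2, intervalIntegral.integral_div]
  have h4 : (N : ℝ) * ((∫ x in (0 : ℝ)..((6 : ℕ) : ℝ) / N,
      altE p (N * x) * (altE p (a * x) * altE p (b * x))) / SS ^ 3) ≤
      N * ((((Nat.mul v (10 ^ 52) : ℕ) : ℝ) / N) / SS ^ 3) := by
    have := SS_pos
    gcongr
  refine h4.trans (le_of_eq ?_)
  have e5 : ((Nat.mul v (10 ^ 52) : ℕ) : ℝ) = v * 10 ^ 52 := by
    show ((v * 10 ^ 52 : ℕ) : ℝ) = v * 10 ^ 52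
    push_cast
    ring
  rw [e5]
  unfold SS
  field_simp
  norm_num

/-- `∫_0^6 s² (p/S)²` -/
theorem q_sound {Bs L v : ℕ} {p : List ℕ}
    (h : leChk Bs L 6 1 2 [p, p] (Nat.mul v (10 ^ 32)) 1 = true) :
    ∫ s in (0 : ℝ)..6, s ^ 2 * (altE p s / SS) ^ 2 ≤ (v : ℝ) / 10 ^ 8 := by
  have h1 := le_of_chk h
  simp only [List.map_cons, List.map_nil, List.prod_cons, List.prod_nil, mul_one] at h1
  have e1 : ((6 : ℕ) : ℝ) / ((1 : ℕ) : ℝ) = 6 := by norm_num
  rw [e1] at h1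
  have e2 : (fun s : ℝ => s ^ 2 * (altE p s / SS) ^ 2) =
      fun s => s ^ 2 * (altE p s * altE p s) / SS ^ 2 := by
    funext s
    have := SS_pos.ne'
    field_simp
  rw [e2, intervalIntegral.integral_div]
  have e5 : ((Nat.mul v (10 ^ 32) : ℕ) : ℝ) = v * 10 ^ 32 := by
    show ((v * 10 ^ 32 : ℕ) : ℝ) = v * 10 ^ 32
    push_cast
    ring
  rw [e5] at h1
  have h4 := div_le_div_of_nonneg_right h1 (sq_nonneg SS)
  refine h4.trans (le_of_eq ?_)
  unfold SS
  field_simp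
  norm_num

/-- `∫_{6j/N}^6 (p/S)²` -/
theorem v_sound {Bs L N j v v1 v2 : ℕ} {p : List ℕ}
    (h1 : leChk Bs L 6 1 0 [p, p] (Nat.mul v1 (10 ^ 32)) 1 = true)
    (h2 : geChk Bs L (6 * j) N 0 [p, p] (Nat.mul v2 (10 ^ 32)) 1 = true) (h3 : v1 ≤ v + v2) :
    ∫ s in (6 * ((j : ℝ) / N))..6, s ^ 0 * (altE p s / SS) ^ 2 ≤ (v : ℝ) / 10 ^ 8 := by
  have k1 := le_of_chk h1
  have k2 := ge_of_chk h2
  simp only [List.map_cons, List.map_nil, List.prod_cons, List.prod_nil, mul_one, pow_zero,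
    one_mul] at k1 k2
  have e1 : ((6 : ℕ) : ℝ) / ((1 : ℕ) : ℝ) = 6 := by norm_num
  rw [e1] at k1
  have e0 : ((6 * j : ℕ) : ℝ) / N = 6 * ((j : ℝ) / N) := by push_cast; ring
  rw [e0] at k2
  have e2 : (fun s : ℝ => s ^ 0 * (altE p s / SS) ^ 2) =
      fun s => (altE p s * altE p s) / SS ^ 2 := by
    funext s
    have := SS_pos.ne'
    field_simp
  rw [e2, intervalIntegral.integral_div]
  have e5 : ∀ u : ℕ, ((Nat.mul u (10 ^ 32) : ℕ) : ℝ) = u * 10 ^ 32 := by
    intro u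
    show ((u * 10 ^ 32 : ℕ) : ℝ) = u * 10 ^ 32
    push_cast
    ring
  rw [e5] at k1 k2
  have hc : Continuous fun s : ℝ => altE p s * altE p s :=
    (altE_continuous p).mul (altE_continuous p)
  have hsplit : (∫ s in (6 * ((j : ℝ) / N))..6, altE p s * altE p s) =
      (∫ s in (0 : ℝ)..6, altE p s * altE p s) -
        ∫ s in (0 : ℝ)..(6 * ((j : ℝ) / N)), altE p s * altE p s := by
    rw [eq_sub_iff_add_eq, add_comm, intervalIntegral.integral_add_adjacent_intervals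
      (hc.intervalIntegrable _ _) (hc.intervalIntegrable _ _)]
  rw [hsplit]
  have h3' : (v1 : ℝ) ≤ v + v2 := by exact_mod_cast h3
  have h4 : (∫ s in (0 : ℝ)..6, altE p s * altE p s) -
        (∫ s in (0 : ℝ)..(6 * ((j : ℝ) / N)), altE p s * altE p s) ≤ (v : ℝ) * 10 ^ 32 := by
    rw [Nat.cast_one, div_one] at k1 k2
    have := mul_le_mul_of_nonneg_right h3' (show (0 : ℝ) ≤ 10 ^ 32 by positivity)
    linarith
  have h5 := div_le_div_of_nonneg_right h4 (sq_nonneg SS)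
  refine h5.trans (le_of_eq ?_)
  unfold SS
  field_simp
  norm_num

/-- `∫_0^6 ((r - p)/S)²`, `r = p + d` coefficientwise -/
theorem d_sound {Bs L v : ℕ} {p r d : List ℕ} (hd : addL p d = r)
    (h : leChk Bs L 6 1 0 [d, d] (Nat.mul v (10 ^ 32)) 1 = true) :
    ∫ s in (0 : ℝ)..6, ((altE r s - altE p s) / SS) ^ 2 ≤ (v : ℝ) / 10 ^ 8 := by
  have h1 := le_of_chk h
  simp only [List.map_cons, List.map_nil, List.prod_cons, List.prod_nil, mul_one, pow_zero,
    one_mul] at h1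
  have e1 : ((6 : ℕ) : ℝ) / ((1 : ℕ) : ℝ) = 6 := by norm_num
  rw [e1] at h1
  have e2 : (fun s : ℝ => ((altE r s - altE p s) / SS) ^ 2) =
      fun s => (altE d s * altE d s) / SS ^ 2 := by
    funext s
    rw [← hd, altE_addL]
    have := SS_pos.ne'
    field_simp
    ring
  rw [e2, intervalIntegral.integral_div]
  have e5 : ((Nat.mul v (10 ^ 32) : ℕ) : ℝ) = v * 10 ^ 32 := by
    show ((v * 10 ^ 32 : ℕ) : ℝ) = v * 10 ^ 32
    push_cast
    ring
  rw [e5, Nat.cast_one, div_one] at h1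
  have h4 := div_le_div_of_nonneg_right h1 (sq_nonneg SS)
  refine h4.trans (le_of_eq ?_)
  unfold SS
  field_simp
  norm_num

end LpSec.G3
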