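import Pool.Agent.Lib.MP_1dbab3_gt.G3.B3
import Pool.Agent.Lib.MP_1dbab3_gt.W.TabDef
import Pool.Agent.Lib.MP_1dbab3_gt.W.DCell
import Pool.Agent.Lib.MP_1dbab3_gt.W.Seg400a
import Pool.Agent.Lib.MP_1dbab3_gt.W.T26a

/-!
Block G3: data of a node (`m / 400`) and of a cell (`[i / 400, (i + 1) / 400]`), and the checks.
-/

namespace LpSec.G3

open LpSec.W

/-- node: polynomial, `∫ s² P²`, `∫ P²` (upper bounds), `∫_0^{6j/N} P²` (lower bounds), table of the integrals of three -/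
structure ND where
  p : List ℕ
  q : ℕ
  v1 : ℕ
  vs : List ℕ
  tb : List (List ℕ)

/-- cell: lower bound of `AA`, error, bound of `T2`, bound of `Q6`, bounds for the tail, differences of the polynomials -/
structure CD where
  a1 : ℕ
  ep : ℕ
  t : ℕ
  q : ℕ
  xs : List ℕ
  dl : List ℕ

/-- grid -/
structure Gr where
  N : ℕ
  k0 : ℕ
  sg : List ℕ
  rh : List ℕ
  kp : List ℕ
  z : ℕ

instance : Inhabited ND := ⟨⟨[], 0, 0, [], []⟩⟩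
instance : Inhabited CD := ⟨⟨0, 0, 0, 0, [], []⟩⟩

/-- entry of the table -/
def ND.T (d : ND) (k0 a b : ℕ) : ℕ := (d.tb.getD (b - k0) []).getD (a - b) 0

/-- lower bound of `∫_0^{6j/N} P²` -/
def ND.V2 (d : ND) (N j : ℕ) : ℕ := d.vs.getD (j - N / 2) 0

def bs2 : ℕ := 2 ^ 150
def bs3 : ℕ := 2 ^ 400
def l2 : ℕ := 144403552893600
def l3 : ℕ := 9419588158802421600

/-- check of a node -/
def nodeOk (g : Gr) (m : ℕ) (d : ND) : Bool :=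
  (d.p == pol400a m) &&
  (leChk bs2 l2 6 1 2 [d.p, d.p] (Nat.mul d.q (10 ^ 32)) 1 &&
  (leChk bs2 l2 6 1 0 [d.p, d.p] (Nat.mul d.v1 (10 ^ 32)) 1 &&
  (((List.range g.N).all fun j => Nat.blt j (g.N / 2) ||
    geChk bs2 l2 (6 * j) g.N 0 [d.p, d.p] (Nat.mul (d.V2 g.N j) (10 ^ 32)) 1) &&
  ((List.range (g.N + 1)).all fun b => (List.range (g.N + 1)).all fun a =>
    (Nat.blt b g.k0 || (Nat.blt a b || Nat.blt (a + b) (g.N - 1))) ||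
      leChk bs3 l3 6 g.N 0 [sc g.N d.p, sc a d.p, sc b d.p] (Nat.mul (d.T g.k0 a b) (10 ^ 52)) g.N))))

/-- division with an upper bound -/
def cd (a b : ℕ) : ℕ := a / b + 1

/-- value at `6` -/
def hor6 : List ℕ → ℕ
  | [] => 0
  | a :: t => Nat.add a (Nat.mul 6 (hor6 t))

/-- the symmetric table -/
def TT (k0 : ℕ) (d0 d1 : ND) (a b : ℕ) : ℕ :=
  max (d0.T k0 (max a b) (min a b)) (d1.T k0 (max a b) (min a b))

/-- bound of `∫_{6j/N}^6 Φ²` -/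
def VV (N : ℕ) (d0 d1 : ND) (ep j : ℕ) : ℕ :=
  cd (21 * max (d0.v1 - d0.V2 N j) (d1.v1 - d1.V2 N j)) 20 + cd (126 * ep ^ 2 * (N - j)) (N * 10 ^ 8)

/-- `σσ' + σ + σ'` -/
def sS (g : Gr) (j k : ℕ) : ℕ :=
  g.sg.getD j 0 * g.sg.getD k 0 + 10 ^ 4 * (g.sg.getD j 0 + g.sg.getD k 0)

/-- total error -/
def er (g : Gr) (c : CD) (j k : ℕ) : ℕ :=
  cd (7072 * c.q * (g.rh.getD j 0 + g.rh.getD k 0)) (8 * g.N ^ 2 * 10 ^ 8) +
  cd (c.ep * sS g j k) (2 * 10 ^ 8) + cd (181 * c.ep ^ 2) (10 ^ 9) +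
  cd (26 * 100 * sS g j k) (100 * 10 ^ 8) +
  cd (g.kp.getD k 0 * c.xs.getD (j - g.N / 2) 0) (10 ^ 8)

/-- check at one corner -/
def cornerOk (g : Gr) (c : CD) (j k v e s : ℕ) : Bool :=
  Nat.ble ((v + e) * (g.N + j + k + 1) ^ 2) (c.a1 * g.N * (g.N + j + k + s))

/-- check of a box -/
def boxOk (g : Gr) (d0 d1 : ND) (c : CD) (j k : ℕ) : Bool :=
  cornerOk g c j k (TT g.k0 d0 d1 j k) (er g c j k) 2 &&
  (cornerOk g c j k (TT g.k0 d0 d1 (j + 1) k) (er g c j k) 1 &&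
  (cornerOk g c j k (TT g.k0 d0 d1 j (k + 1)) (er g c j k) 1 &&
  cornerOk g c j k (TT g.k0 d0 d1 (j + 1) (k + 1)) (er g c j k) 0))

/-- check of `X_j` -/
def xOk (g : Gr) (d0 d1 : ND) (c : CD) (j : ℕ) : Bool :=
  Nat.blt 0 (c.xs.getD (j - g.N / 2) 0) &&
  Nat.ble (c.t * (c.t + VV g.N d0 d1 c.ep j) * g.N) (c.xs.getD (j - g.N / 2) 0 ^ 2 * j)

/-- check of a cell -/
def cellOk (g : Gr) (i : ℕ) (d0 d1 : ND) (c : CD) : Bool :=
  (Nat.ble ((c.a1 + 5001) * 400) ((4 - i % 4) * ac (i / 4) + (i % 4) * ac (i / 4 + 1)) &&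
  (Nat.ble ((c.a1 + 5001) * 400) ((3 - i % 4) * ac (i / 4) + (i % 4 + 1) * ac (i / 4 + 1)) &&
  (Nat.blt 0 c.a1 && (Nat.ble (hor6 (err400a i)) (c.ep * 10 ^ 12) && Nat.ble c.ep (10 ^ 5))))) &&
  ((Nat.ble (101 * d0.q * 10 ^ 8 + 101 * 216 * 100 * c.ep ^ 2) (c.q * 10 ^ 10) &&
  (Nat.ble (101 * d1.q * 10 ^ 8 + 101 * 216 * 100 * c.ep ^ 2) (c.q * 10 ^ 10) &&
  Nat.ble (t26a i) (c.t * 10))) &&
  (((addL d0.p c.dl == d1.p) && leChk bs2 l2 6 1 0 [c.dl, c.dl] (Nat.mul 100 (10 ^ 32)) 1) &&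
  ((Nat.ble ((cen400a i).m2 + (rad400a i).m2) 14144000000 &&
    Nat.ble ((cen400a (i + 1)).m2 + (rad400a i).m2) 14144000000) &&
  (ptOk 17 g.z d0.p d1.p (err400a i) 2000001 4000000 &&
  (((List.range g.N).all fun j => Nat.blt j (g.N / 2) || xOk g d0 d1 c j) &&
  ((List.range g.N).all fun k => (List.range g.N).all fun j =>
    (Nat.blt k g.k0 || (Nat.blt j k || Nat.blt (j + k) (g.N - 1))) || boxOk g d0 d1 c j k))))))

/-- check of the constants of the grid -/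
def Gr.ok (g : Gr) : Bool :=
  (Nat.blt 1 g.N && Nat.blt 0 g.k0) &&
  (List.range (g.N + 1)).all fun j => Nat.blt j 1 ||
    ((Nat.ble (g.N * 10 ^ 8) (g.sg.getD j 0 ^ 2 * j) && Nat.ble (10 ^ 4) (g.sg.getD j 0)) &&
    (Nat.ble (g.N ^ 3 * 10 ^ 8) (g.rh.getD j 0 ^ 2 * j ^ 3) && Nat.blt 0 (g.rh.getD j 0)))

end LpSec.G3
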