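import Pool.Agent.Lib.MP_1dbab3_gt.G3.C1
import Pool.Agent.Lib.MP_1dbab3_gt.G3.B1
import Pool.Agent.Lib.MP_1dbab3_gt.G3.B2
import Pool.Agent.Lib.MP_1dbab3_gt.G3.A5
import Pool.Agent.Lib.MP_1dbab3_gt.GamX

/-!
Block G3: soundness of the checks, first part.
-/

open Real MeasureTheory Set Filter Topology

namespace LpSec.G3

open LpSec.W

theorem cd_le (a : ℕ) {b : ℕ} (hb : 0 < b) : (a : ℝ) / b ≤ cd a b := by
  have hb' : (0 : ℝ) < b := by exact_mod_cast hb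
  rw [div_le_iff₀ hb']
  have h := Nat.lt_mul_div_succ a hb
  have h2 : a ≤ (cd a b) * b := by
    unfold cd
    rw [mul_comm]
    exact h.le
  exact_mod_cast h2

theorem posE_le_hor6 : ∀ (e : List ℕ) {s : ℝ}, 0 ≤ s → s ≤ 6 → posE e s ≤ hor6 e
  | [], s, _, _ => by simp [posE, hor6]
  | a :: t, s, h0, h6 => by
    have ih := posE_le_hor6 t h0 h6
    have h1 : (hor6 (a :: t) : ℝ) = a + 6 * hor6 t := by
      show (((a + 6 * hor6 t : ℕ)) : ℝ) = a + 6 * hor6 t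
      push_cast
      ring
    rw [h1, posE]
    have h2 : s * posE t s ≤ 6 * hor6 t :=
      (mul_le_mul_of_nonneg_left ih h0).trans
        (mul_le_mul_of_nonneg_right h6 (Nat.cast_nonneg _))
    linarith

theorem ep_all : ∀ i < 104, hor6 (err400a i) ≤ 10 ^ 17 := by decide +kernel

/-- `Φ` between the polynomials, error `ep / 10^8` -/
theorem phi_seg {i ep : ℕ} (hi : i < 104) {l : ℝ} (hl : 0 ≤ l) (hl1 : l ≤ 1) (hw : 0 < (i : ℝ) + l)
    (he : hor6 (err400a i) ≤ ep * 10 ^ 12) {s : ℝ} (hs : 0 ≤ s) (hs6 : s ≤ 6) :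
    |Phi (1 / (((i : ℝ) + l) / 400)) s -
      ((1 - l) * altE (pol400a i) s + l * altE (pol400a (i + 1)) s) / SS| ≤ (ep : ℝ) / 10 ^ 8 := by
  have h := Phi_cell400a (Nat.zero_le i) hi hl hl1 hw hs (show s ≤ 61 / 10 by linarith)
  have h2 := posE_le_hor6 (err400a i) hs hs6
  have h3 : (hor6 (err400a i) : ℝ) ≤ (ep : ℝ) * 10 ^ 12 := by exact_mod_cast he
  unfold SS
  refine h.trans ?_
  rw [div_le_div_iff₀ (by norm_num) (by norm_num)]
  nlinarith

theorem alpha_gt {i : ℕ} (hi : i < 104) {l : ℝ} (_hl : 0 ≤ l) (hl1 : l ≤ 1)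
    (hw : 0 < (i : ℝ) + l) : 1 < 1 / (((i : ℝ) + l) / 400) := by
  have hi' : (i : ℝ) ≤ 103 := by exact_mod_cast (by omega : i ≤ 103)
  rw [lt_div_iff₀ (by positivity), one_mul, div_lt_iff₀ (by norm_num)]
  linarith

theorem node_bd {m : ℕ} (hm : m ≤ 103) {s : ℝ} (hs : 0 ≤ s) (hs6 : s ≤ 6) :
    |altE (pol400a m) s / SS| ≤ 101 / 100 := by
  have key : ∀ k : ℕ, 1 ≤ k → k ≤ 103 → |altE (pol400a k) s / SS| ≤ 1 + 1 / 1000 := by
    intro k hk hk2
    have hk' : (1 : ℝ) ≤ k := by exact_mod_cast hk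
    have h := phi_seg (i := k) (ep := 10 ^ 5) (by omega) le_rfl zero_le_one (by linarith)
      (by have := ep_all k (by omega); omega) hs hs6
    have h1 := Phi_abs_le_one (α := 1 / (((k : ℝ) + 0) / 400))
      (alpha_gt (by omega) le_rfl zero_le_one (by linarith)) hs
    have e1 : (((1 - 0) * altE (pol400a k) s + 0 * altE (pol400a (k + 1)) s) / SS) =
      altE (pol400a k) s / SS := by ring
    rw [e1] at h
    have h2 := abs_sub_abs_le_abs_sub (altE (pol400a k) s / SS) (Phi (1 / (((k : ℝ) + 0) / 400)) s)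
    rw [abs_sub_comm] at h2
    push_cast at h
    linarith
  rcases Nat.eq_zero_or_pos m with rfl | h0
  · have h := phi_seg (i := 0) (ep := 10 ^ 5) (l := 1 / 1000) (by omega) (by norm_num) (by norm_num)
      (by norm_num) (by have := ep_all 0 (by omega); omega) hs hs6
    have h1 := Phi_abs_le_one (α := 1 / ((((0 : ℕ) : ℝ) + 1 / 1000) / 400))
      (alpha_gt (by omega) (by norm_num) (by norm_num) (by norm_num)) hs
    have h2 := key 1 le_rfl (by omega)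
    rw [abs_le] at *
    have e1 : (((1 - 1 / 1000) * altE (pol400a 0) s + 1 / 1000 * altE (pol400a (0 + 1)) s) / SS) =
      (1 - 1 / 1000) * (altE (pol400a 0) s / SS) + 1 / 1000 * (altE (pol400a 1) s / SS) := by ring
    rw [e1] at h
    push_cast at h h1
    constructor <;> linarith
  · have := key m h0 hm
    linarith

theorem AA_seg {i a1 : ℕ} (hi : i < 100) (h1 : (a1 + 5001) * 400 ≤
    (4 - i % 4) * ac (i / 4) + (i % 4) * ac (i / 4 + 1))
    (h2 : (a1 + 5001) * 400 ≤ (3 - i % 4) * ac (i / 4) + (i % 4 + 1) * ac (i / 4 + 1))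
    {l : ℝ} (hl : 0 ≤ l) (hl1 : l ≤ 1) (hw : 0 < (i : ℝ) + l) :
    (a1 : ℝ) / 10 ^ 8 < AA (1 / (((i : ℝ) + l) / 400)) := by
  have hr : i % 4 < 4 := Nat.mod_lt _ (by norm_num)
  have hI : i / 4 < 100 := by omega
  have e0 : (i : ℝ) = 4 * ((i / 4 : ℕ) : ℝ) + ((i % 4 : ℕ) : ℝ) := by
    exact_mod_cast (Nat.div_add_mod i 4).symm
  have hr' : ((i % 4 : ℕ) : ℝ) ≤ 3 := by exact_mod_cast (by omega : i % 4 ≤ 3)
  have hr0 : (0 : ℝ) ≤ ((i % 4 : ℕ) : ℝ) := Nat.cast_nonneg _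
  have h := (AA_cell hI (l := (((i % 4 : ℕ) : ℝ) + l) / 4) (by positivity) (by linarith)
    (by rw [e0] at hw; linarith)).1
  have e1 : (((i / 4 : ℕ) : ℝ) + (((i % 4 : ℕ) : ℝ) + l) / 4) / 100 = ((i : ℝ) + l) / 400 := by
    rw [e0]; ring
  rw [e1] at h
  have k1 : ((a1 : ℝ) + 5001) * 400 ≤
      (4 - ((i % 4 : ℕ) : ℝ)) * ac (i / 4) + ((i % 4 : ℕ) : ℝ) * ac (i / 4 + 1) := by
    have := (Nat.cast_le (α := ℝ)).2 h1
    push_cast [Nat.cast_sub hr.le] at this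
    exact this
  have k2 : ((a1 : ℝ) + 5001) * 400 ≤
      (3 - ((i % 4 : ℕ) : ℝ)) * ac (i / 4) + (((i % 4 : ℕ) : ℝ) + 1) * ac (i / 4 + 1) := by
    have := (Nat.cast_le (α := ℝ)).2 h2
    push_cast [Nat.cast_sub (by omega : i % 4 ≤ 3)] at this
    exact this
  have k3 : ((a1 : ℝ) + 5001) * 400 ≤ (4 - ((i % 4 : ℕ) : ℝ) - l) * ac (i / 4) +
      (((i % 4 : ℕ) : ℝ) + l) * ac (i / 4 + 1) := by
    have m1 := mul_le_mul_of_nonneg_left k1 (by linarith : 0 ≤ 1 - l)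
    have m2 := mul_le_mul_of_nonneg_left k2 hl
    linarith
  refine lt_of_lt_of_le ?_ h
  linarith

end LpSec.G3
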