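import Pool.Agent.Lib.MP_1dbab3_gt.G3.C2

/-!
Block G3: soundness of the checks, second part.
-/

open Real MeasureTheory Set Filter Topology

namespace LpSec.G3

open LpSec.W

theorem nodeOk_iff {g : Gr} {m : ℕ} {d : ND} (h : nodeOk g m d = true) :
    d.p = pol400a m ∧
    (∫ s in (0 : ℝ)..6, s ^ 2 * (altE (pol400a m) s / SS) ^ 2 ≤ (d.q : ℝ) / 10 ^ 8) ∧
    (∀ j, g.N / 2 ≤ j → j < g.N →
      ∫ s in (6 * ((j : ℝ) / g.N))..6, s ^ 0 * (altE (pol400a m) s / SS) ^ 2 ≤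
        ((d.v1 - d.V2 g.N j : ℕ) : ℝ) / 10 ^ 8) ∧
    (∀ a b, g.k0 ≤ b → b ≤ a → a ≤ g.N → g.N - 1 ≤ a + b → 0 < g.N →
      ∫ s in (0 : ℝ)..6, altE (pol400a m) s / SS * (altE (pol400a m) ((a : ℝ) / g.N * s) / SS *
        (altE (pol400a m) ((b : ℝ) / g.N * s) / SS)) ≤ ((d.T g.k0 a b : ℕ) : ℝ) / 10 ^ 8) := by
  unfold nodeOk at h
  simp only [Bool.and_eq_true, List.all_eq_true, List.mem_range, Bool.or_eq_true, beq_iff_eq] at h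
  obtain ⟨h1, h2, h3, h4, h5⟩ := h
  rw [h1] at h2 h3 h4 h5
  refine ⟨h1, q_sound h2, fun j hj hj2 => ?_, fun a b hb hab ha hs hN => ?_⟩
  · rcases h4 j hj2 with h | h
    · rw [Nat.blt_eq] at h; omega
    · exact v_sound h3 h le_tsub_add
  · rcases h5 b (by omega) a (by omega) with h | h
    · simp only [Nat.blt_eq] at h; omega
    · exact three_sound hN h

theorem Gr.ok_iff {g : Gr} (h : g.ok = true) : 1 < g.N ∧ 0 < g.k0 ∧ ∀ j, 0 < j → j ≤ g.N →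
    1 ≤ ((g.sg.getD j 0 : ℕ) : ℝ) / 10 ^ 4 ∧
    1 ≤ (((g.sg.getD j 0 : ℕ) : ℝ) / 10 ^ 4) ^ 2 * ((j : ℝ) / g.N) ∧
    0 < ((g.rh.getD j 0 : ℕ) : ℝ) / 10 ^ 4 ∧
    1 ≤ (((g.rh.getD j 0 : ℕ) : ℝ) / 10 ^ 4) ^ 2 * ((j : ℝ) / g.N) ^ 3 := by
  unfold Gr.ok at h
  simp only [Bool.and_eq_true, List.all_eq_true, List.mem_range, Bool.or_eq_true, Nat.blt_eq,
    Nat.ble_eq] at h
  obtain ⟨⟨h1, h2⟩, h3⟩ := h
  refine ⟨h1, h2, fun j hj hj2 => ?_⟩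
  have hN : (0 : ℝ) < g.N := by exact_mod_cast (by omega : 0 < g.N)
  rcases h3 j (by omega) with h | ⟨⟨k1, k2⟩, k3, k4⟩
  · omega
  · have k1' : (g.N : ℝ) * 10 ^ 8 ≤ ((g.sg.getD j 0 : ℕ) : ℝ) ^ 2 * j := by exact_mod_cast k1
    have k2' : (10 : ℝ) ^ 4 ≤ ((g.sg.getD j 0 : ℕ) : ℝ) := by exact_mod_cast k2
    have k3' : (g.N : ℝ) ^ 3 * 10 ^ 8 ≤ ((g.rh.getD j 0 : ℕ) : ℝ) ^ 2 * j ^ 3 := by
      exact_mod_cast k3
    have k4' : (0 : ℝ) < ((g.rh.getD j 0 : ℕ) : ℝ) := by exact_mod_cast k4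
    refine ⟨?_, ?_, by positivity, ?_⟩
    · rw [le_div_iff₀ (by positivity)]; linarith
    · rw [div_pow, div_mul_div_comm, le_div_iff₀ (by positivity)]
      linarith
    · rw [div_pow, div_pow, div_mul_div_comm, le_div_iff₀ (by positivity)]
      linarith

/-- the facts about one cell -/
structure Cell (g : Gr) (i : ℕ) (d0 d1 : ND) (c : CD) : Prop where
  a1 : (c.a1 + 5001) * 400 ≤ (4 - i % 4) * ac (i / 4) + (i % 4) * ac (i / 4 + 1)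
  a2 : (c.a1 + 5001) * 400 ≤ (3 - i % 4) * ac (i / 4) + (i % 4 + 1) * ac (i / 4 + 1)
  a3 : 0 < c.a1
  e1 : hor6 (err400a i) ≤ c.ep * 10 ^ 12
  e2 : c.ep ≤ 10 ^ 5
  q0 : 101 * d0.q * 10 ^ 8 + 101 * 216 * 100 * c.ep ^ 2 ≤ c.q * 10 ^ 10
  q1 : 101 * d1.q * 10 ^ 8 + 101 * 216 * 100 * c.ep ^ 2 ≤ c.q * 10 ^ 10
  t : t26a i ≤ c.t * 10
  dl : addL d0.p c.dl = d1.p
  dd : leChk bs2 l2 6 1 0 [c.dl, c.dl] (Nat.mul 100 (10 ^ 32)) 1 = true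
  m0 : (cen400a i).m2 + (rad400a i).m2 ≤ 14144000000
  m1 : (cen400a (i + 1)).m2 + (rad400a i).m2 ≤ 14144000000
  z : ptOk 17 g.z d0.p d1.p (err400a i) 2000001 4000000 = true
  x : ∀ j, g.N / 2 ≤ j → j < g.N → 0 < c.xs.getD (j - g.N / 2) 0 ∧
    c.t * (c.t + VV g.N d0 d1 c.ep j) * g.N ≤ c.xs.getD (j - g.N / 2) 0 ^ 2 * j
  b : ∀ j k, g.k0 ≤ k → k ≤ j → g.N - 1 ≤ j + k → j < g.N → boxOk g d0 d1 c j k = true

theorem cellOk_iff {g : Gr} {i : ℕ} {d0 d1 : ND} {c : CD} (h : cellOk g i d0 d1 c = true) :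
    Cell g i d0 d1 c := by
  unfold cellOk at h
  simp only [Bool.and_eq_true, List.all_eq_true, List.mem_range, Bool.or_eq_true, Nat.blt_eq,
    Nat.ble_eq, beq_iff_eq, xOk] at h
  obtain ⟨⟨h1, h2, h3, h4, h5⟩, ⟨h6, h7, h8⟩, ⟨h9, h10⟩, ⟨h11, h12⟩, h13, h14, h15⟩ := h
  refine ⟨h1, h2, h3, h4, h5, h6, h7, h8, h9, h10, h11, h12, h13, fun j hj hj2 => ?_,
    fun j k hk hkj hs hj => ?_⟩
  · rcases h14 j hj2 with h | h
    · omega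
    · exact h
  · rcases h15 k (by omega) j hj with h | h
    · omega
    · exact h

end LpSec.G3
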