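import Pool.Agent.Lib.MP_1dbab3_gt.G3.C3

/-!
Block G3: soundness of the checks, third part.
-/

open Real MeasureTheory Set Filter Topology

namespace LpSec.G3

open LpSec.W

theorem H6_symm (α x y : ℝ) : H6 α x y = H6 α y x := by
  unfold H6
  refine intervalIntegral.integral_congr fun s _ => ?_
  show Phi α s * (Phi α (x * s) * Phi α (y * s)) = Phi α s * (Phi α (y * s) * Phi α (x * s))
  rw [mul_comm (Phi α (x * s))]

variable {g : Gr} {i : ℕ} {d0 d1 : ND} {c : CD} {l : ℝ}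

theorem H6_corner (hg : g.ok = true) (hi : i < 100) (h0 : nodeOk g i d0 = true)
    (h1 : nodeOk g (i + 1) d1 = true) (hC : Cell g i d0 d1 c) (hl : 0 ≤ l) (hl1 : l ≤ 1)
    (hw : 0 < (i : ℝ) + l) {a b : ℕ} (ha : g.k0 ≤ a) (hb : g.k0 ≤ b) (ha' : a ≤ g.N)
    (hb' : b ≤ g.N) (hs : g.N - 1 ≤ a + b) {σ σ' : ℝ} (s1 : 1 ≤ σ)
    (s2 : 1 ≤ σ ^ 2 * ((a : ℝ) / g.N)) (s3 : 1 ≤ σ') (s4 : 1 ≤ σ' ^ 2 * ((b : ℝ) / g.N)) :
    H6 (1 / (((i : ℝ) + l) / 400)) ((a : ℝ) / g.N) ((b : ℝ) / g.N) ≤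
      ((TT g.k0 d0 d1 a b : ℕ) : ℝ) / 10 ^ 8 +
      ((c.ep : ℝ) / 10 ^ 8) / 2 * (σ * σ' + σ + σ') +
      (18 * ((c.ep : ℝ) / 10 ^ 8) ^ 2 + 6 * ((c.ep : ℝ) / 10 ^ 8) ^ 3) +
      26 / 100 * ((100 : ℕ) / 10 ^ 8) * (σ * σ' + σ + σ') := by
  obtain ⟨g1, g2, g3⟩ := Gr.ok_iff hg
  obtain ⟨p0, q0, v0, t0⟩ := nodeOk_iff h0
  obtain ⟨p1, q1, v1, t1⟩ := nodeOk_iff h1
  have hα := alpha_gt (i := i) (by omega) hl hl1 hw
  have hN : (0 : ℝ) < g.N := by exact_mod_cast (by omega : 0 < g.N)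
  have hD := d_sound (v := 100) hC.dl hC.dd
  rw [p0, p1] at hD
  have main : ∀ a b : ℕ, g.k0 ≤ b → b ≤ a → a ≤ g.N → g.N - 1 ≤ a + b → ∀ σ σ' : ℝ, 1 ≤ σ →
      1 ≤ σ ^ 2 * ((a : ℝ) / g.N) → 1 ≤ σ' → 1 ≤ σ' ^ 2 * ((b : ℝ) / g.N) →
      H6 (1 / (((i : ℝ) + l) / 400)) ((a : ℝ) / g.N) ((b : ℝ) / g.N) ≤
      ((TT g.k0 d0 d1 a b : ℕ) : ℝ) / 10 ^ 8 +
      ((c.ep : ℝ) / 10 ^ 8) / 2 * (σ * σ' + σ + σ') +
      (18 * ((c.ep : ℝ) / 10 ^ 8) ^ 2 + 6 * ((c.ep : ℝ) / 10 ^ 8) ^ 3) +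
      26 / 100 * ((100 : ℕ) / 10 ^ 8) * (σ * σ' + σ + σ') := by
    intro a b hb hab ha hs σ σ' s1 s2 s3 s4
    have hb0 : (0 : ℝ) < b := by exact_mod_cast (by omega : 0 < b)
    have ha0 : (0 : ℝ) < a := by exact_mod_cast (by omega : 0 < a)
    have haN : (a : ℝ) ≤ g.N := by exact_mod_cast ha
    have hbN : (b : ℝ) ≤ g.N := by exact_mod_cast (by omega : b ≤ g.N)
    refine H6_node hα (AA_lt_one hα).le (A := pol400a i) (B := pol400a (i + 1)) hl hl1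
      (by positivity) (fun s hs hs6 => phi_seg (by omega) hl hl1 hw hC.e1 hs hs6)
      (fun s hs hs6 => node_bd (by omega) hs hs6) (fun s hs hs6 => node_bd (by omega) hs hs6) hD
      (by positivity) ((div_le_one hN).2 haN) (by positivity) ((div_le_one hN).2 hbN) s1 s2 s3 s4
      ?_ ?_
    · refine (t0 a b hb hab ha hs (by omega)).trans ?_
      have : d0.T g.k0 a b ≤ TT g.k0 d0 d1 a b := by
        unfold TT
        rw [max_eq_left hab, min_eq_right hab]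
        exact le_max_left _ _
      gcongr
    · refine (t1 a b hb hab ha hs (by omega)).trans ?_
      have : d1.T g.k0 a b ≤ TT g.k0 d0 d1 a b := by
        unfold TT
        rw [max_eq_left hab, min_eq_right hab]
        exact le_max_right _ _
      gcongr
  rcases le_total b a with hab | hab
  · exact main a b hb hab ha' hs σ σ' s1 s2 s3 s4
  · have := main b a ha hab hb' (by omega) σ' σ s3 s4 s1 s2
    have e1 : TT g.k0 d0 d1 b a = TT g.k0 d0 d1 a b := by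
      unfold TT
      rw [max_comm b a, min_comm b a]
    rw [H6_symm, ← e1]
    refine this.trans (le_of_eq ?_)
    ring

theorem Q6_le (hi : i < 100) (h0 : nodeOk g i d0 = true)
    (h1 : nodeOk g (i + 1) d1 = true) (hC : Cell g i d0 d1 c) (hl : 0 ≤ l) (hl1 : l ≤ 1)
    (hw : 0 < (i : ℝ) + l) : Q6 (1 / (((i : ℝ) + l) / 400)) ≤ (c.q : ℝ) / 10 ^ 8 := by
  obtain ⟨p0, q0, v0, t0⟩ := nodeOk_iff h0
  obtain ⟨p1, q1, v1, t1⟩ := nodeOk_iff h1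
  have hα := alpha_gt (i := i) (by omega) hl hl1 hw
  have m0 : (d0.q : ℝ) / 10 ^ 8 ≤ (max d0.q d1.q : ℕ) / 10 ^ 8 := by
    have : d0.q ≤ max d0.q d1.q := le_max_left _ _
    gcongr
  have m1 : (d1.q : ℝ) / 10 ^ 8 ≤ (max d0.q d1.q : ℕ) / 10 ^ 8 := by
    have : d1.q ≤ max d0.q d1.q := le_max_right _ _
    gcongr
  have h := sq_le hα (A := pol400a i) (B := pol400a (i + 1)) (η := 1 / 100) (a := 0) 2 hl hl1
    (ε := (c.ep : ℝ) / 10 ^ 8) (by positivity) (by norm_num) le_rfl (by norm_num)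
    (fun s hs hs6 => phi_seg (by omega) hl hl1 hw hC.e1 hs hs6) (q0.trans m0) (q1.trans m1)
  unfold Q6
  refine h.trans ?_
  have k : 101 * (max d0.q d1.q) * 10 ^ 8 + 101 * 216 * 100 * c.ep ^ 2 ≤ c.q * 10 ^ 10 := by
    rcases le_total d0.q d1.q with h | h
    · rw [max_eq_right h]; exact hC.q1
    · rw [max_eq_left h]; exact hC.q0
  have k' : 101 * ((max d0.q d1.q : ℕ) : ℝ) * 10 ^ 8 + 101 * 216 * 100 * (c.ep : ℝ) ^ 2 ≤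
      c.q * 10 ^ 10 := by exact_mod_cast k
  have e1 : (1 + 1 / 100) * (((max d0.q d1.q : ℕ) : ℝ) / 10 ^ 8) +
      (1 + 1 / (1 / 100)) * ((c.ep : ℝ) / 10 ^ 8) ^ 2 * (6 ^ 2 * (6 - 0)) =
      (101 * ((max d0.q d1.q : ℕ) : ℝ) * 10 ^ 8 + 101 * 216 * 100 * (c.ep : ℝ) ^ 2) / 10 ^ 18 := by
    ring
  rw [e1, div_le_div_iff₀ (by positivity) (by positivity)]
  linarith

theorem V6_le (hg : g.ok = true) (hi : i < 100) (h0 : nodeOk g i d0 = true)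
    (h1 : nodeOk g (i + 1) d1 = true) (hC : Cell g i d0 d1 c) (hl : 0 ≤ l) (hl1 : l ≤ 1)
    (hw : 0 < (i : ℝ) + l) {j : ℕ} (hj : g.N / 2 ≤ j) (hj2 : j < g.N) :
    V6 (1 / (((i : ℝ) + l) / 400)) ((j : ℝ) / g.N) ≤
      ((VV g.N d0 d1 c.ep j : ℕ) : ℝ) / 10 ^ 8 := by
  obtain ⟨g1, g2, g3⟩ := Gr.ok_iff hg
  obtain ⟨p0, q0, v0, t0⟩ := nodeOk_iff h0
  obtain ⟨p1, q1, v1, t1⟩ := nodeOk_iff h1
  have hα := alpha_gt (i := i) (by omega) hl hl1 hw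
  have hN : (0 : ℝ) < g.N := by exact_mod_cast (by omega : 0 < g.N)
  have hjN : (j : ℝ) ≤ g.N := by exact_mod_cast hj2.le
  have m0 : ((d0.v1 - d0.V2 g.N j : ℕ) : ℝ) / 10 ^ 8 ≤
      (max (d0.v1 - d0.V2 g.N j) (d1.v1 - d1.V2 g.N j) : ℕ) / 10 ^ 8 := by
    have : d0.v1 - d0.V2 g.N j ≤ max (d0.v1 - d0.V2 g.N j) (d1.v1 - d1.V2 g.N j) := le_max_left _ _
    gcongr
  have m1 : ((d1.v1 - d1.V2 g.N j : ℕ) : ℝ) / 10 ^ 8 ≤
      (max (d0.v1 - d0.V2 g.N j) (d1.v1 - d1.V2 g.N j) : ℕ) / 10 ^ 8 := by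
    have : d1.v1 - d1.V2 g.N j ≤ max (d0.v1 - d0.V2 g.N j) (d1.v1 - d1.V2 g.N j) := le_max_right _ _
    gcongr
  have hz1 : (j : ℝ) / g.N ≤ 1 := (div_le_one hN).2 hjN
  have h := sq_le hα (A := pol400a i) (B := pol400a (i + 1)) (η := 1 / 20)
    (a := 6 * ((j : ℝ) / g.N)) 0 hl hl1
    (ε := (c.ep : ℝ) / 10 ^ 8) (by positivity) (by norm_num) (by positivity) (by linarith)
    (fun s hs hs6 => phi_seg (by omega) hl hl1 hw hC.e1 hs hs6)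
    ((v0 j hj hj2).trans m0) ((v1 j hj hj2).trans m1)
  have e0 : V6 (1 / (((i : ℝ) + l) / 400)) ((j : ℝ) / g.N) =
      ∫ s in (6 * ((j : ℝ) / g.N))..6, s ^ 0 * Phi (1 / (((i : ℝ) + l) / 400)) s ^ 2 := by
    unfold V6
    simp only [pow_zero, one_mul]
  rw [e0]
  refine h.trans ?_
  have k1 := cd_le (21 * max (d0.v1 - d0.V2 g.N j) (d1.v1 - d1.V2 g.N j)) (b := 20) (by norm_num)
  have k2 := cd_le (126 * c.ep ^ 2 * (g.N - j)) (b := g.N * 10 ^ 8) (by positivity)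
  have k3 : ((g.N - j : ℕ) : ℝ) = (g.N : ℝ) - j := by rw [Nat.cast_sub hj2.le]
  unfold VV
  simp only [Nat.cast_mul, Nat.cast_ofNat, Nat.cast_max, Nat.cast_pow, Nat.cast_add, k3]
    at k1 k2 ⊢
  have e1 : (1 + 1 / 20) * ((max (((d0.v1 - d0.V2 g.N j : ℕ) : ℝ)) (((d1.v1 - d1.V2 g.N j : ℕ) : ℝ))) /
      10 ^ 8) + (1 + 1 / (1 / 20)) * ((c.ep : ℝ) / 10 ^ 8) ^ 2 * (6 ^ 0 * (6 - 6 * ((j : ℝ) / g.N))) =
      (21 * max (((d0.v1 - d0.V2 g.N j : ℕ) : ℝ)) (((d1.v1 - d1.V2 g.N j : ℕ) : ℝ)) / 20 +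
        126 * (c.ep : ℝ) ^ 2 * ((g.N : ℝ) - j) / (g.N * 10 ^ 8)) / 10 ^ 8 := by
    field_simp
    ring
  rw [e1]
  gcongr

end LpSec.G3
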