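import Pool.Agent.Lib.MP_1dbab3_gt.G3.C4

/-!
Block G3: soundness of the checks, fourth part.
-/

open Real MeasureTheory Set Filter Topology

namespace LpSec.G3

open LpSec.W

variable {g : Gr} {i : ℕ} {d0 d1 : ND} {c : CD} {l : ℝ}

theorem corner_sound {j k v e s : ℕ} (hN : 0 < g.N) (h : cornerOk g c j k v e s = true) :
    ((v : ℝ) + e) / 10 ^ 8 ≤ (c.a1 : ℝ) / 10 ^ 8 * (((g.N + j + k + s : ℕ) : ℝ) / g.N) /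
      (((g.N + j + k + 1 : ℕ) : ℝ) / g.N) ^ 2 := by
  have hN' : (0 : ℝ) < g.N := by exact_mod_cast hN
  unfold cornerOk at h
  rw [Nat.ble_eq] at h
  have h' : ((v : ℝ) + e) * ((g.N + j + k + 1 : ℕ) : ℝ) ^ 2 ≤
      c.a1 * g.N * ((g.N + j + k + s : ℕ) : ℝ) := by exact_mod_cast h
  have hp : (0 : ℝ) < ((g.N + j + k + 1 : ℕ) : ℝ) := by positivity
  set A : ℝ := ((g.N + j + k + 1 : ℕ) : ℝ)
  set B : ℝ := ((g.N + j + k + s : ℕ) : ℝ)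
  have e1 : (c.a1 : ℝ) / 10 ^ 8 * (B / g.N) / (A / g.N) ^ 2 = c.a1 * g.N * B / (10 ^ 8 * A ^ 2) := by
    field_simp
  rw [e1, div_le_div_iff₀ (by positivity) (by positivity)]
  nlinarith [mul_le_mul_of_nonneg_left h' (show (0 : ℝ) ≤ 10 ^ 8 by positivity)]

theorem mom2_le (hi : i < 100) (hC : Cell g i d0 d1 c) (hl : 0 ≤ l) (hl1 : l ≤ 1)
    (hw : 0 < (i : ℝ) + l) : mom (1 / (((i : ℝ) + l) / 400)) 2 / 2 ≤ 7072 / 10 ^ 4 := by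
  have h := (abs_le.1 (mom_cell400a (Nat.zero_le i) (by omega) hl hl1 hw (k := 2)
    (by norm_num))).2
  have m0 : ((cen400a i).m2 : ℝ) + (rad400a i).m2 ≤ 14144000000 := by exact_mod_cast hC.m0
  have m1 : ((cen400a (i + 1)).m2 : ℝ) + (rad400a i).m2 ≤ 14144000000 := by exact_mod_cast hC.m1
  simp only [Rw.f, Rw.g] at h
  have h1 := mul_le_mul_of_nonneg_left m0 (by linarith : 0 ≤ 1 - l)
  have h2 := mul_le_mul_of_nonneg_left m1 hl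
  linarith

/-- the error of a box -/
theorem er_eq {j k : ℕ} (hg : g.ok = true) (hC : Cell g i d0 d1 c) :
    7072 / 10 ^ 4 * (1 / (g.N : ℝ)) ^ 2 / 8 * ((c.q : ℝ) / 10 ^ 8) *
      (((g.rh.getD j 0 : ℕ) : ℝ) / 10 ^ 4 + ((g.rh.getD k 0 : ℕ) : ℝ) / 10 ^ 4) +
      ((g.kp.getD k 0 : ℕ) : ℝ) / 10 ^ 8 * (((c.xs.getD (j - g.N / 2) 0 : ℕ) : ℝ) / 10 ^ 8) +
      (((c.ep : ℝ) / 10 ^ 8) / 2 * (((g.sg.getD j 0 : ℕ) : ℝ) / 10 ^ 4 *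
        (((g.sg.getD k 0 : ℕ) : ℝ) / 10 ^ 4) + ((g.sg.getD j 0 : ℕ) : ℝ) / 10 ^ 4 +
        ((g.sg.getD k 0 : ℕ) : ℝ) / 10 ^ 4) +
      (18 * ((c.ep : ℝ) / 10 ^ 8) ^ 2 + 6 * ((c.ep : ℝ) / 10 ^ 8) ^ 3) +
      26 / 100 * ((100 : ℕ) / 10 ^ 8) * (((g.sg.getD j 0 : ℕ) : ℝ) / 10 ^ 4 *
        (((g.sg.getD k 0 : ℕ) : ℝ) / 10 ^ 4) + ((g.sg.getD j 0 : ℕ) : ℝ) / 10 ^ 4 +
        ((g.sg.getD k 0 : ℕ) : ℝ) / 10 ^ 4)) ≤ ((er g c j k : ℕ) : ℝ) / 10 ^ 8 := by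
  obtain ⟨g1, g2, g3⟩ := Gr.ok_iff hg
  have hN : (0 : ℝ) < g.N := by exact_mod_cast (by omega : 0 < g.N)
  have hN0 : 0 < g.N := by omega
  have k1 := cd_le (7072 * c.q * (g.rh.getD j 0 + g.rh.getD k 0)) (b := 8 * g.N ^ 2 * 10 ^ 8)
    (by positivity)
  have k2 := cd_le (c.ep * sS g j k) (b := 2 * 10 ^ 8) (by positivity)
  have k3 := cd_le (181 * c.ep ^ 2) (b := 10 ^ 9) (by positivity)
  have k4 := cd_le (26 * 100 * sS g j k) (b := 100 * 10 ^ 8) (by positivity)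
  have k5 := cd_le (g.kp.getD k 0 * c.xs.getD (j - g.N / 2) 0) (b := 10 ^ 8) (by positivity)
  have hep : (c.ep : ℝ) ≤ 10 ^ 5 := by exact_mod_cast hC.e2
  have hep0 : (0 : ℝ) ≤ c.ep := Nat.cast_nonneg _
  have hS : ((sS g j k : ℕ) : ℝ) = ((g.sg.getD j 0 : ℕ) : ℝ) * ((g.sg.getD k 0 : ℕ) : ℝ) +
      10 ^ 4 * (((g.sg.getD j 0 : ℕ) : ℝ) + ((g.sg.getD k 0 : ℕ) : ℝ)) := by
    unfold sS
    push_cast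
    ring
  unfold er
  simp only [Nat.cast_mul, Nat.cast_ofNat, Nat.cast_pow, Nat.cast_add, hS] at k1 k2 k3 k4 k5 ⊢
  set x1 := ((cd (7072 * c.q * (g.rh.getD j 0 + g.rh.getD k 0)) (8 * g.N ^ 2 * 10 ^ 8) : ℕ) : ℝ)
  set x2 := ((cd (c.ep * sS g j k) (2 * 10 ^ 8) : ℕ) : ℝ)
  set x3 := ((cd (181 * c.ep ^ 2) (10 ^ 9) : ℕ) : ℝ)
  set x4 := ((cd (26 * 100 * sS g j k) (100 * 10 ^ 8) : ℕ) : ℝ)
  set x5 := ((cd (g.kp.getD k 0 * c.xs.getD (j - g.N / 2) 0) (10 ^ 8) : ℕ) : ℝ)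
  set rj := ((g.rh.getD j 0 : ℕ) : ℝ)
  set rk := ((g.rh.getD k 0 : ℕ) : ℝ)
  set sj := ((g.sg.getD j 0 : ℕ) : ℝ)
  set sk := ((g.sg.getD k 0 : ℕ) : ℝ)
  set kk := ((g.kp.getD k 0 : ℕ) : ℝ)
  set xx := ((c.xs.getD (j - g.N / 2) 0 : ℕ) : ℝ)
  set N := (g.N : ℝ)
  set ε := (c.ep : ℝ)
  set q := (c.q : ℝ)
  have e1 : 7072 / 10 ^ 4 * (1 / N) ^ 2 / 8 * (q / 10 ^ 8) * (rj / 10 ^ 4 + rk / 10 ^ 4) =
      (7072 * q * (rj + rk) / (8 * N ^ 2 * 10 ^ 8)) / 10 ^ 8 := by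
    field_simp
  have e5 : kk / 10 ^ 8 * (xx / 10 ^ 8) = (kk * xx / 10 ^ 8) / 10 ^ 8 := by ring
  have e2 : (ε / 10 ^ 8) / 2 * (sj / 10 ^ 4 * (sk / 10 ^ 4) + sj / 10 ^ 4 + sk / 10 ^ 4) =
      (ε * (sj * sk + 10 ^ 4 * (sj + sk)) / (2 * 10 ^ 8)) / 10 ^ 8 := by ring
  have e4 : 26 / 100 * (100 / 10 ^ 8) * (sj / 10 ^ 4 * (sk / 10 ^ 4) + sj / 10 ^ 4 +
      sk / 10 ^ 4) = (26 * 100 * (sj * sk + 10 ^ 4 * (sj + sk)) / (100 * 10 ^ 8)) / 10 ^ 8 := by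
    ring
  have e3 : 18 * (ε / 10 ^ 8) ^ 2 + 6 * (ε / 10 ^ 8) ^ 3 ≤ (181 * ε ^ 2 / 10 ^ 9) / 10 ^ 8 := by
    have : ε ^ 3 ≤ 10 ^ 5 * ε ^ 2 := by nlinarith [sq_nonneg ε]
    have h1 : 18 * (ε / 10 ^ 8) ^ 2 + 6 * (ε / 10 ^ 8) ^ 3 =
      18 * ε ^ 2 / 10 ^ 16 + 6 * ε ^ 3 / 10 ^ 24 := by ring
    have h2 : (181 * ε ^ 2 / 10 ^ 9) / 10 ^ 8 = 18 * ε ^ 2 / 10 ^ 16 + ε ^ 2 / 10 ^ 17 := by ring
    rw [h1, h2]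
    have h3 : 6 * ε ^ 3 / 10 ^ 24 ≤ 6 * (10 ^ 5 * ε ^ 2) / 10 ^ 24 := by gcongr
    nlinarith [sq_nonneg ε]
  rw [e1, e5, e2, e4]
  have hfin : (x1 + x2 + x3 + x4 + x5) / 10 ^ 8 =
      x1 / 10 ^ 8 + x2 / 10 ^ 8 + x3 / 10 ^ 8 + x4 / 10 ^ 8 + x5 / 10 ^ 8 := by ring
  rw [hfin]
  have l1 := div_le_div_of_nonneg_right k1 (show (0 : ℝ) ≤ 10 ^ 8 by positivity)
  have l2 := div_le_div_of_nonneg_right k2 (show (0 : ℝ) ≤ 10 ^ 8 by positivity)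
  have l3 := div_le_div_of_nonneg_right k3 (show (0 : ℝ) ≤ 10 ^ 8 by positivity)
  have l4 := div_le_div_of_nonneg_right k4 (show (0 : ℝ) ≤ 10 ^ 8 by positivity)
  have l5 := div_le_div_of_nonneg_right k5 (show (0 : ℝ) ≤ 10 ^ 8 by positivity)
  linarith

end LpSec.G3
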