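import Pool.Agent.Lib.MP_1dbab3_gt.G3.C5

/-!
Block G3: soundness of the checks, fifth part.
-/

open Real MeasureTheory Set Filter Topology

namespace LpSec.G3

open LpSec.W

variable {g : Gr} {i : ℕ} {d0 d1 : ND} {c : CD} {l : ℝ}

/-- cell of the grid containing a point of `[0, 1]` -/
theorem grid_cell {N : ℕ} (hN : 0 < N) {x : ℝ} (h0 : 0 ≤ x) (h1 : x ≤ 1) :
    ((min ⌊N * x⌋₊ (N - 1) : ℕ) : ℝ) / N ≤ x ∧
      x ≤ ((min ⌊N * x⌋₊ (N - 1) : ℕ) : ℝ) / N + 1 / N ∧ min ⌊N * x⌋₊ (N - 1) < N := by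
  have hN' : (0 : ℝ) < N := by exact_mod_cast hN
  have hf := Nat.floor_le (show 0 ≤ (N : ℝ) * x by positivity)
  have hf2 := Nat.lt_floor_add_one ((N : ℝ) * x)
  refine ⟨?_, ?_, ?_⟩
  · rw [div_le_iff₀ hN']
    have : ((min ⌊(N : ℝ) * x⌋₊ (N - 1) : ℕ) : ℝ) ≤ ⌊(N : ℝ) * x⌋₊ := by
      exact_mod_cast min_le_left _ _
    linarith
  · rw [← add_div, le_div_iff₀ hN']
    rcases le_total ⌊(N : ℝ) * x⌋₊ (N - 1) with h | h
    · rw [min_eq_left h]; linarith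
    · rw [min_eq_right h, Nat.cast_sub (by omega)]
      push_cast
      nlinarith
  · have := min_le_right ⌊(N : ℝ) * x⌋₊ (N - 1)
    omega

theorem cell_sound (hg : g.ok = true) (hk0 : g.k0 < g.N) (hi : i < 100)
    (h0 : nodeOk g i d0 = true) (h1 : nodeOk g (i + 1) d1 = true)
    (hc : cellOk g i d0 d1 c = true) (hl : 0 ≤ l) (hl1 : l ≤ 1) (hw : 0 < (i : ℝ) + l)
    (hκ : ∀ k, g.k0 ≤ k → k < g.N → ∀ x, 6 * ((k : ℝ) / g.N) ≤ x →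
      |Phi (1 / (((i : ℝ) + l) / 400)) x| ≤ ((g.kp.getD k 0 : ℕ) : ℝ) / 10 ^ 8)
    {y z w : ℝ} (hw0 : 0 < w) (hwz : w ≤ z) (hzy : z ≤ y) (hs : y + z + w = 1)
    (hy2 : y < 1 / 2) (hω : (g.k0 : ℝ) / g.N ≤ w / y) :
    J (1 / (((i : ℝ) + l) / 400)) ![y, z, w] < AA (1 / (((i : ℝ) + l) / 400)) := by
  obtain ⟨g1, g2, g3⟩ := Gr.ok_iff hg
  have hC := cellOk_iff hc
  have hα := alpha_gt (i := i) (by omega) hl hl1 hw
  have hN0 : 0 < g.N := by omega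
  have hN : (0 : ℝ) < g.N := by exact_mod_cast hN0
  have hz0 : 0 < z := by linarith
  have hy0 : 0 < y := by linarith
  have z0 : 0 < z / y := by positivity
  have w0 : 0 < w / y := by positivity
  have z1 : z / y ≤ 1 := (div_le_one hy0).2 hzy
  have w1 : w / y ≤ z / y := by gcongr
  have hsum : 1 < z / y + w / y := by
    rw [← add_div, lt_div_iff₀ hy0]; linarith
  obtain ⟨a1, a2, a3⟩ := grid_cell hN0 z0.le z1
  obtain ⟨b1, b2, b3⟩ := grid_cell hN0 w0.le (w1.trans z1)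
  have hkj : min ⌊(g.N : ℝ) * (w / y)⌋₊ (g.N - 1) ≤ min ⌊(g.N : ℝ) * (z / y)⌋₊ (g.N - 1) :=
    min_le_min_right _ (Nat.floor_le_floor (by gcongr))
  have hk : g.k0 ≤ min ⌊(g.N : ℝ) * (w / y)⌋₊ (g.N - 1) := by
    refine le_min (Nat.le_floor ?_) (by omega)
    rw [div_le_iff₀ hN] at hω
    linarith
  generalize min ⌊(g.N : ℝ) * (w / y)⌋₊ (g.N - 1) = k at *
  generalize min ⌊(g.N : ℝ) * (z / y)⌋₊ (g.N - 1) = j at *
  have hjk : g.N - 1 ≤ j + k := by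
    have h2 : 1 < ((j : ℝ) + k + 2) / g.N := by
      have : ((j : ℝ) + k + 2) / g.N = (j : ℝ) / g.N + 1 / g.N + ((k : ℝ) / g.N + 1 / g.N) := by
        ring
      rw [this]; linarith
    rw [lt_div_iff₀ hN, one_mul] at h2
    have h3 : g.N < j + k + 2 := by exact_mod_cast h2
    omega
  have hj2 : g.N / 2 ≤ j := by omega
  have hbox := hC.b j k hk hkj hjk a3
  unfold boxOk at hbox
  simp only [Bool.and_eq_true] at hbox
  obtain ⟨c1, c2, c3, c4⟩ := hbox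
  have hk00 : 0 < k := by omega
  have hj00 : 0 < j := by omega
  have hk0' : (0 : ℝ) < k := by exact_mod_cast hk00
  have hj0' : (0 : ℝ) < j := by exact_mod_cast hj00
  obtain ⟨sj1, sj2, rj1, rj2⟩ := g3 j hj00 a3.le
  obtain ⟨sk1, sk2, rk1, rk2⟩ := g3 k hk00 b3.le
  obtain ⟨x1, x2⟩ := hC.x j hj2 a3
  have her := er_eq (j := j) (k := k) hg hC
  have hj1 : ((j + 1 : ℕ) : ℝ) / g.N = (j : ℝ) / g.N + 1 / g.N := by push_cast; ring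
  have hk1 : ((k + 1 : ℕ) : ℝ) / g.N = (k : ℝ) / g.N + 1 / g.N := by push_cast; ring
  have hjm : (j : ℝ) / g.N ≤ ((j + 1 : ℕ) : ℝ) / g.N := by
    rw [hj1]; have : 0 ≤ 1 / (g.N : ℝ) := by positivity
    linarith
  have hkm : (k : ℝ) / g.N ≤ ((k + 1 : ℕ) : ℝ) / g.N := by
    rw [hk1]; have : 0 ≤ 1 / (g.N : ℝ) := by positivity
    linarith
  have sj3 : 1 ≤ (((g.sg.getD j 0 : ℕ) : ℝ) / 10 ^ 4) ^ 2 * (((j + 1 : ℕ) : ℝ) / g.N) :=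
    sj2.trans (mul_le_mul_of_nonneg_left hjm (sq_nonneg _))
  have sk3 : 1 ≤ (((g.sg.getD k 0 : ℕ) : ℝ) / 10 ^ 4) ^ 2 * (((k + 1 : ℕ) : ℝ) / g.N) :=
    sk2.trans (mul_le_mul_of_nonneg_left hkm (sq_nonneg _))
  have H00 := H6_corner hg hi h0 h1 hC hl hl1 hw (a := j) (b := k) (by omega) hk a3.le b3.le hjk
    sj1 sj2 sk1 sk2
  have H10 := H6_corner hg hi h0 h1 hC hl hl1 hw (a := j + 1) (b := k) (by omega) hk (by omega)
    b3.le (by omega) sj1 sj3 sk1 sk2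
  have H01 := H6_corner hg hi h0 h1 hC hl hl1 hw (a := j) (b := k + 1) (by omega) (by omega) a3.le
    (by omega) (by omega) sj1 sj2 sk1 sk3
  have H11 := H6_corner hg hi h0 h1 hC hl hl1 hw (a := j + 1) (b := k + 1) (by omega) (by omega)
    (by omega) (by omega) (by omega) sj1 sj3 sk1 sk3
  rw [hj1] at H10 H11
  rw [hk1] at H01 H11
  have k1 := corner_sound hN0 c1
  have k2 := corner_sound hN0 c2
  have k3 := corner_sound hN0 c3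
  have k4 := corner_sound hN0 c4
  have hT : T2 (1 / (((i : ℝ) + l) / 400)) 6 ≤ (c.t : ℝ) / 10 ^ 8 := by
    refine (t26a_T2 (Nat.zero_le i) (by omega) hl hl1 hw).trans ?_
    have : (t26a i : ℝ) ≤ c.t * 10 := by exact_mod_cast hC.t
    rw [div_le_div_iff₀ (by norm_num) (by norm_num)]
    linarith
  have hX2 : (c.t : ℝ) / 10 ^ 8 * ((c.t : ℝ) / 10 ^ 8 + ((VV g.N d0 d1 c.ep j : ℕ) : ℝ) / 10 ^ 8) ≤
      (((c.xs.getD (j - g.N / 2) 0 : ℕ) : ℝ) / 10 ^ 8) ^ 2 * ((j : ℝ) / g.N) := by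
    have x2' : (c.t : ℝ) * (c.t + ((VV g.N d0 d1 c.ep j : ℕ) : ℝ)) * g.N ≤
        ((c.xs.getD (j - g.N / 2) 0 : ℕ) : ℝ) ^ 2 * j := by exact_mod_cast x2
    set V := ((VV g.N d0 d1 c.ep j : ℕ) : ℝ)
    set X := ((c.xs.getD (j - g.N / 2) 0 : ℕ) : ℝ)
    have e1 : (c.t : ℝ) / 10 ^ 8 * ((c.t : ℝ) / 10 ^ 8 + V / 10 ^ 8) =
        (c.t : ℝ) * (c.t + V) / 10 ^ 16 := by ring
    have e2 : (X / 10 ^ 8) ^ 2 * ((j : ℝ) / g.N) = X ^ 2 * j / (10 ^ 16 * g.N) := by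
      field_simp
    rw [e1, e2, div_le_div_iff₀ (by positivity) (by positivity)]
    nlinarith
  have hx1 : (0 : ℝ) < ((c.xs.getD (j - g.N / 2) 0 : ℕ) : ℝ) / 10 ^ 8 := by
    have : (0 : ℝ) < ((c.xs.getD (j - g.N / 2) 0 : ℕ) : ℝ) := by exact_mod_cast x1
    positivity
  have ha3 : (0 : ℝ) < (c.a1 : ℝ) / 10 ^ 8 := by
    have : (0 : ℝ) < (c.a1 : ℝ) := by exact_mod_cast hC.a3
    positivity
  have q1 : (j : ℝ) / g.N + 1 / g.N ≤ 1 := by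
    rw [← add_div, div_le_one hN]; exact_mod_cast (by omega : j + 1 ≤ g.N)
  have q2 : (k : ℝ) / g.N + 1 / g.N ≤ 1 := by
    rw [← add_div, div_le_one hN]; exact_mod_cast (by omega : k + 1 ≤ g.N)
  have f1 : ((g.N + j + k + 1 : ℕ) : ℝ) / g.N = 1 + (j : ℝ) / g.N + k / g.N + 1 / g.N := by
    push_cast
    field_simp
  have f2 : ((g.N + j + k + 2 : ℕ) : ℝ) / g.N =
      1 + (j : ℝ) / g.N + k / g.N + 1 / g.N + 1 / g.N := by
    push_cast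
    field_simp
    ring
  have f0 : ((g.N + j + k + 0 : ℕ) : ℝ) / g.N =
      1 + (j : ℝ) / g.N + k / g.N + 1 / g.N - 1 / g.N := by
    push_cast
    field_simp
    ring
  rw [f1] at k1 k2 k3 k4
  rw [f2] at k1
  rw [f0] at k4
  set Er := ((er g c j k : ℕ) : ℝ)
  refine box_lt hα hy0 hz0 hw0 hzy hs (mom2_le hi hC hl hl1 hw) (h := 1 / (g.N : ℝ))
    (by positivity) (ζ0 := (j : ℝ) / g.N) (ω0 := (k : ℝ) / g.N) (by positivity) (by positivity)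
    q1 q2 a1 a2 b1 b2 (Q6_le hi h0 h1 hC hl hl1 hw) rj1 rj2 rk1 rk2
    (κ := ((g.kp.getD k 0 : ℕ) : ℝ) / 10 ^ 8) (by positivity)
    (fun s hs => hκ k hk b3 _ ?_) hT (V6_le hg hi h0 h1 hC hl hl1 hw hj2 a3) hx1 hX2
    (AA_seg hi hC.a1 hC.a2 hl hl1 hw) ha3 rfl le_rfl H00 H10 H01 H11 ?_ ?_ ?_ ?_
  · calc 6 * ((k : ℝ) / g.N) ≤ s * (w / y) := by gcongr
      _ = w / y * s := mul_comm _ _
  · refine le_trans ?_ k1
    have : (((TT g.k0 d0 d1 j k : ℕ) : ℝ) + Er) / 10 ^ 8 =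
      ((TT g.k0 d0 d1 j k : ℕ) : ℝ) / 10 ^ 8 + Er / 10 ^ 8 := by ring
    rw [this]
    linarith
  · refine le_trans ?_ k2
    have : (((TT g.k0 d0 d1 (j + 1) k : ℕ) : ℝ) + Er) / 10 ^ 8 =
      ((TT g.k0 d0 d1 (j + 1) k : ℕ) : ℝ) / 10 ^ 8 + Er / 10 ^ 8 := by ring
    rw [this]
    linarith
  · refine le_trans ?_ k3
    have : (((TT g.k0 d0 d1 j (k + 1) : ℕ) : ℝ) + Er) / 10 ^ 8 =
      ((TT g.k0 d0 d1 j (k + 1) : ℕ) : ℝ) / 10 ^ 8 + Er / 10 ^ 8 := by ring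
    rw [this]
    linarith
  · refine le_trans ?_ k4
    have : (((TT g.k0 d0 d1 (j + 1) (k + 1) : ℕ) : ℝ) + Er) / 10 ^ 8 =
      ((TT g.k0 d0 d1 (j + 1) (k + 1) : ℕ) : ℝ) / 10 ^ 8 + Er / 10 ^ 8 := by ring
    rw [this]
    linarith

end LpSec.G3
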