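import Pool.Agent.Lib.MP_1dbab3_gt.G3.C1

/-!
Block G3: the two grids.
-/

namespace LpSec.G3

/-- the grid of width `1 / 10` -/
def g10 : Gr :=
  ⟨10, 2, [0, 31623, 22361, 18258, 15812, 14143, 12910, 11953, 11181, 10541, 10000], [0, 316228,
  111804, 60859, 39529, 28285, 21517, 17075, 13976, 11713, 10000], [0, 0, 30120000, 16530000,
  16530000, 16530000, 16530000, 16530000, 16530000, 16530000], 18⟩

theorem g10_ok : g10.ok = true := by decide +kernel

/-- the grid of width `1 / 20` -/
def g20 : Gr :=
  ⟨20, 5, [0, 44722, 31623, 25820, 22361, 20000, 18258, 16904, 15812, 14908, 14143, 13484, 12910,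
  12404, 11953, 11548, 11181, 10847, 10541, 10260, 10000], [0, 894428, 316228, 172133, 111804,
  80000, 60859, 48295, 39529, 33127, 28285, 24517, 21517, 19083, 17075, 15397, 13976, 12761, 11713,
  10800, 10000], [0, 0, 0, 0, 0, 22314000, 16530000, 14957000, 14957000, 14957000, 14957000,
  14957000, 14957000, 14957000, 14957000, 14957000, 14957000, 14957000, 14957000, 14957000], 19⟩

theorem g20_ok : g20.ok = true := by decide +kernel

end LpSec.G3
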