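import Pool.Agent.Lib.MP_1dbab3_gt.G3.C6
import Pool.Agent.Lib.MP_1dbab3_gt.G3.Dg
import Pool.Agent.Lib.MP_1dbab3_gt.W.LobeAll
import Pool.Agent.Lib.MP_1dbab3_gt.WKey

/-!
Block G3: the bounds of `|Φ|` beyond `6 k / N`.
-/

open Real MeasureTheory Set Filter Topology

namespace LpSec.G3

open LpSec.W

theorem expneg_le {t κ : ℝ} (ht : 0 ≤ t) (hκ : 0 < κ)
    (h : 1 / κ ≤ ∑ i ∈ Finset.range 16, t ^ i / (i.factorial : ℝ)) : exp (-t) ≤ κ := by
  have h1 := h.trans (Real.sum_le_exp_of_nonneg ht 16)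
  rw [exp_neg, inv_le_comm₀ (exp_pos _) hκ, ← one_div]
  exact h1

theorem exp12 : exp (-(6 / 5)) ≤ (30120000 : ℝ) / 10 ^ 8 :=
  expneg_le (by norm_num) (by norm_num) (by norm_num [Finset.sum_range_succ, Nat.factorial])

theorem exp18 : exp (-(9 / 5)) ≤ (16530000 : ℝ) / 10 ^ 8 :=
  expneg_le (by norm_num) (by norm_num) (by norm_num [Finset.sum_range_succ, Nat.factorial])

theorem exp15 : exp (-(3 / 2)) ≤ (22314000 : ℝ) / 10 ^ 8 :=
  expneg_le (by norm_num) (by norm_num) (by norm_num [Finset.sum_range_succ, Nat.factorial])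

theorem exp19 : exp (-(19 / 10)) ≤ (14957000 : ℝ) / 10 ^ 8 :=
  expneg_le (by norm_num) (by norm_num) (by norm_num [Finset.sum_range_succ, Nat.factorial])

theorem kap_bound {α : ℝ} (h : Lobe α) {x t κ : ℝ} (hx : 0 ≤ x) (h1 : t ≤ x) (h2 : t ≤ z1 α)
    (h3 : t ≤ 2) (hκ : exp (-t) ≤ κ) : |Phi α x| ≤ κ := by
  refine (h.abs_le hx).trans ((exp_le_exp.2 ?_).trans hκ)
  exact neg_le_neg (le_min h1 (le_min h2 h3))

theorem kap10 {α : ℝ} (h : Lobe α) (hz : 9 / 5 ≤ z1 α) (k : ℕ) (hk : g10.k0 ≤ k)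
    (hk2 : k < g10.N) (x : ℝ) (hx : 6 * ((k : ℝ) / g10.N) ≤ x) :
    |Phi α x| ≤ ((g10.kp.getD k 0 : ℕ) : ℝ) / 10 ^ 8 := by
  change 2 ≤ k at hk
  change k < 10 at hk2
  change 6 * ((k : ℝ) / ((10 : ℕ) : ℝ)) ≤ x at hx
  have hx0 : 0 ≤ x := le_trans (by positivity) hx
  rcases Nat.lt_or_ge k 3 with h3 | h3
  · obtain rfl : k = 2 := by omega
    exact kap_bound h hx0 (by norm_num at hx ⊢; linarith) (by linarith) (by norm_num) exp12
  · have hk' : (3 : ℝ) ≤ k := by exact_mod_cast h3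
    have e1 : g10.kp.getD k 0 = 16530000 := by
      interval_cases k <;> rfl
    rw [e1]
    refine kap_bound h hx0 ?_ hz (by norm_num) (by exact_mod_cast exp18)
    refine le_trans ?_ hx
    push_cast
    linarith

theorem kap20 {α : ℝ} (h : Lobe α) (hz : 19 / 10 ≤ z1 α) (k : ℕ) (hk : g20.k0 ≤ k)
    (hk2 : k < g20.N) (x : ℝ) (hx : 6 * ((k : ℝ) / g20.N) ≤ x) :
    |Phi α x| ≤ ((g20.kp.getD k 0 : ℕ) : ℝ) / 10 ^ 8 := by
  change 5 ≤ k at hk
  change k < 20 at hk2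
  change 6 * ((k : ℝ) / ((20 : ℕ) : ℝ)) ≤ x at hx
  have hx0 : 0 ≤ x := le_trans (by positivity) hx
  rcases Nat.lt_or_ge k 7 with h3 | h3
  · rcases Nat.lt_or_ge k 6 with h4 | h4
    · obtain rfl : k = 5 := by omega
      exact kap_bound h hx0 (by norm_num at hx ⊢; linarith) (by linarith) (by norm_num) exp15
    · obtain rfl : k = 6 := by omega
      exact kap_bound h hx0 (by norm_num at hx ⊢; linarith) (by linarith) (by norm_num) exp18
  · have hk' : (7 : ℝ) ≤ k := by exact_mod_cast h3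
    have e1 : g20.kp.getD k 0 = 14957000 := by
      interval_cases k <;> rfl
    rw [e1]
    refine kap_bound h hx0 ?_ hz (by norm_num) (by exact_mod_cast exp19)
    refine le_trans ?_ hx
    push_cast
    linarith

/-- `z1 α > zz / 10` from the check -/
theorem z1_gt {i z : ℕ} {p0 p1 : List ℕ} (hp0 : p0 = pol400a i) (hp1 : p1 = pol400a (i + 1))
    (hi : i < 100) {l : ℝ} (hl : 0 ≤ l) (hl1 : l ≤ 1) (hw : 0 < (i : ℝ) + l) (hz : z ≤ 60)
    (hlen : ∀ k < 104, (pol400a k).length ≤ 17 ∧ (err400a k).length ≤ 17)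
    (h : ptOk 17 z p0 p1 (err400a i) 2000001 4000000 = true)
    (hL : Lobe (1 / (((i : ℝ) + l) / 400))) : (z : ℝ) / 10 ≤ z1 (1 / (((i : ℝ) + l) / 400)) := by
  have hz' : (z : ℝ) ≤ 60 := by exact_mod_cast hz
  have h1 := pt_sound (by rw [hp0]; exact (hlen i (by omega)).1)
    (by rw [hp1]; exact (hlen (i + 1) (by omega)).1) (by norm_num) (hlen i (by omega)).2 h hl hl1
    (f := Phi (1 / (((i : ℝ) + l) / 400)) ((z : ℝ) / 10)) (by
      rw [hp0, hp1]
      exact Phi_cell400a (Nat.zero_le i) (by omega) hl hl1 hw (by positivity) (by linarith))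
  refine (lt_z1_of hL (by linarith) (lt_of_lt_of_le (by norm_num) h1.1)).le

theorem len_all : ∀ k < 104, (pol400a k).length ≤ 17 ∧ (err400a k).length ≤ 17 := by
  decide +kernel

end LpSec.G3
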