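import Pool.Agent.Lib.MP_1dbab3_gt.G3.C7
import Pool.Agent.Lib.MP_1dbab3_gt.G3.K10a
import Pool.Agent.Lib.MP_1dbab3_gt.G3.K10b
import Pool.Agent.Lib.MP_1dbab3_gt.G3.K20a
import Pool.Agent.Lib.MP_1dbab3_gt.G3.K20b

/-!
# Block G3: `n = 3`, `α ≥ 4`, all coordinates below `1/2`, the smallest at least a quarter of the largest
-/

open Real MeasureTheory Set Filter Topology

namespace LpSec.G3

open LpSec.W

theorem cl_get {P : ℕ → CD → Prop} {L : List CD} {n a m : ℕ}
    (h : ∀ k < n, P (a + k) (L.getD k default)) (h1 : a ≤ m) (h2 : m < a + n) :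
    P m (L.getD (m - a) default) := by
  have := h (m - a) (by omega)
  rwa [show a + (m - a) = m by omega] at this

theorem cell10 {i : ℕ} (hi : i < 72) : ∃ c : CD, cellOk g10 i (nd10 i) (nd10 (i + 1)) c = true := by
  have k0 : ∀ k < 36, cellOk g10 (0 + k) (nd10 (0 + k)) (nd10 (0 + k + 1)) (cl10a.getD k default) =
    true := fun k hk => List.all_eq_true.1 cl10a_ok k (List.mem_range.2 hk)
  have k1 : ∀ k < 36, cellOk g10 (36 + k) (nd10 (36 + k)) (nd10 (36 + k + 1))
    (cl10b.getD k default) = true := fun k hk => List.all_eq_true.1 cl10b_ok k (List.mem_range.2 hk)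
  by_cases h : i < 36
  · exact ⟨_, cl_get (P := fun m c => cellOk g10 m (nd10 m) (nd10 (m + 1)) c = true) k0 (by omega)
      (by omega)⟩
  · exact ⟨_, cl_get (P := fun m c => cellOk g10 m (nd10 m) (nd10 (m + 1)) c = true) k1 (by omega)
      (by omega)⟩

theorem cell20 {i : ℕ} (h0 : 72 ≤ i) (hi : i < 100) :
    ∃ c : CD, cellOk g20 i (nd20 i) (nd20 (i + 1)) c = true := by
  have k0 : ∀ k < 14, cellOk g20 (72 + k) (nd20 (72 + k)) (nd20 (72 + k + 1))
    (cl20a.getD k default) = true := fun k hk => List.all_eq_true.1 cl20a_ok k (List.mem_range.2 hk)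
  have k1 : ∀ k < 14, cellOk g20 (86 + k) (nd20 (86 + k)) (nd20 (86 + k + 1))
    (cl20b.getD k default) = true := fun k hk => List.all_eq_true.1 cl20b_ok k (List.mem_range.2 hk)
  by_cases h : i < 86
  · exact ⟨_, cl_get (P := fun m c => cellOk g20 m (nd20 m) (nd20 (m + 1)) c = true) k0 (by omega)
      (by omega)⟩
  · exact ⟨_, cl_get (P := fun m c => cellOk g20 m (nd20 m) (nd20 (m + 1)) c = true) k1 (by omega)
      (by omega)⟩

theorem core3_cell {i : ℕ} (hi : i < 100) {l : ℝ} (hl : 0 ≤ l) (hl1 : l ≤ 1)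
    (hw : 0 < (i : ℝ) + l) {y z w : ℝ} (hw0 : 0 < w) (hwz : w ≤ z) (hzy : z ≤ y)
    (hs : y + z + w = 1) (hy : y < 1 / 2) (hyw : y / 4 ≤ w) :
    J (1 / (((i : ℝ) + l) / 400)) ![y, z, w] < AA (1 / (((i : ℝ) + l) / 400)) := by
  have hy0 : 0 < y := by linarith
  have hi' : (i : ℝ) ≤ 99 := by exact_mod_cast (by omega : i ≤ 99)
  have hα : 5 / 4 ≤ 1 / (((i : ℝ) + l) / 400) := by
    rw [le_div_iff₀ (by positivity)]
    linarith
  have hL := LpSec.lobe hα
  have hr : (1 : ℝ) / 4 ≤ w / y := by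
    rw [le_div_iff₀ hy0]; linarith
  by_cases h : i < 72
  · obtain ⟨c, hc⟩ := cell10 h
    have n0 := nd10_ok (m := i) (Nat.zero_le _) (by omega)
    have n1 := nd10_ok (m := i + 1) (Nat.zero_le _) (by omega)
    have hz : 9 / 5 ≤ z1 (1 / (((i : ℝ) + l) / 400)) :=
      le_trans (by norm_num) (z1_gt (z := 18) (nodeOk_iff n0).1 (nodeOk_iff n1).1 hi hl hl1 hw
        (by norm_num) len_all (cellOk_iff hc).z hL)
    refine cell_sound g10_ok (by decide) hi n0 n1 hc hl hl1 hw (kap10 hL hz) hw0 hwz hzy hs hy ?_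
    show ((2 : ℕ) : ℝ) / ((10 : ℕ) : ℝ) ≤ w / y
    push_cast
    linarith
  · obtain ⟨c, hc⟩ := cell20 (by omega) hi
    have n0 := nd20_ok (m := i) (by omega) (by omega)
    have n1 := nd20_ok (m := i + 1) (by omega) (by omega)
    have hz : 19 / 10 ≤ z1 (1 / (((i : ℝ) + l) / 400)) :=
      le_trans (by norm_num) (z1_gt (z := 19) (nodeOk_iff n0).1 (nodeOk_iff n1).1 hi hl hl1 hw
        (by norm_num) len_all (cellOk_iff hc).z hL)
    refine cell_sound g20_ok (by decide) hi n0 n1 hc hl hl1 hw (kap20 hL hz) hw0 hwz hzy hs hy ?_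
    show ((5 : ℕ) : ℝ) / ((20 : ℕ) : ℝ) ≤ w / y
    push_cast
    linarith

/-- **Block G3**: `α ≥ 4`, three coordinates below `1/2`, the smallest at least a quarter of the largest. -/
theorem core3_small {α : ℝ} (h : 4 ≤ α) {y z w : ℝ} (hw0 : 0 < w) (hwz : w ≤ z) (hzy : z ≤ y)
    (hs : y + z + w = 1) (hy : y < 1 / 2) (hyw : y / 4 ≤ w) : J α ![y, z, w] < AA α := by
  have hα : 0 < α := by linarith
  have hx0 : 0 ≤ 4 / α := by positivity
  have hx1 : 4 / α ≤ 1 := (div_le_one hα).2 h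
  obtain ⟨a1, a2, a3⟩ := grid_cell (N := 100) (by norm_num) hx0 hx1
  generalize min ⌊((100 : ℕ) : ℝ) * (4 / α)⌋₊ (100 - 1) = i at *
  push_cast at a1 a2
  have hu : (1 : ℝ) / α = (4 / α) / 4 := by ring
  have key := core3_cell a3 (l := 400 / α - i) (by
      have : (400 : ℝ) / α = 100 * (4 / α) := by ring
      rw [this]; linarith) (by
      have : (400 : ℝ) / α = 100 * (4 / α) := by ring
      rw [this]; linarith) (by
      have : 0 < (400 : ℝ) / α := by positivity
      linarith) hw0 hwz hzy hs hy hyw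
  have e1 : 1 / (((i : ℝ) + (400 / α - i)) / 400) = α := by
    rw [add_sub_cancel]
    field_simp
  rwa [e1] at key

end LpSec.G3
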