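import Mathlib
import Pool.Agent.Lib.MP_1dbab3_gt.WLobe
import Pool.Agent.Lib.MP_1dbab3_gt.W.Eval
import Pool.Agent.Lib.MP_1dbab3_gt.W.Two

/-!
# Block G3 (`n = 3`, `u ≤ 1/4`, all coordinates below `1/2`): definitions

`J (y, z, w) = (1/y) ∫ Φ(s) Φ(ζ s) Φ(ω s) ds`, `ζ = z/y`, `ω = w/y`, is evaluated directly: the part over `[0, 6]` by
bilinear interpolation in `(ζ, ω)` between the points of a grid of width `1/N`, where the integrals of products of three
polynomials are computed exactly; the rest by Cauchy-Schwarz.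
-/

open Real MeasureTheory Set Filter Topology

namespace LpSec.G3

/-- `∫_0^6 Φ(s) Φ(z s) Φ(w s) ds` -/
noncomputable def H6 (α z w : ℝ) : ℝ :=
  ∫ s in (0 : ℝ)..6, Phi α s * (Phi α (z * s) * Phi α (w * s))

/-- `∫_0^6 s² Φ(s)² ds` -/
noncomputable def Q6 (α : ℝ) : ℝ := ∫ s in (0 : ℝ)..6, s ^ 2 * Phi α s ^ 2

/-- `∫_{6z}^6 Φ(s)² ds` -/
noncomputable def V6 (α z : ℝ) : ℝ := ∫ s in (6 * z)..6, Phi α s ^ 2

/-- scale of the polynomials -/
noncomputable def SS : ℝ := 100000000000000000000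

end LpSec.G3
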