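import Pool.Agent.Lib.MP_1dbab3_gt.G3.N10a
import Pool.Agent.Lib.MP_1dbab3_gt.G3.N10b
import Pool.Agent.Lib.MP_1dbab3_gt.G3.N10c
import Pool.Agent.Lib.MP_1dbab3_gt.G3.N10d
import Pool.Agent.Lib.MP_1dbab3_gt.G3.N20a
import Pool.Agent.Lib.MP_1dbab3_gt.G3.N20b
import Pool.Agent.Lib.MP_1dbab3_gt.G3.N20c
import Pool.Agent.Lib.MP_1dbab3_gt.G3.N20d

/-!
Block G3: all nodes.
-/

namespace LpSec.G3

theorem seg_get {P : ℕ → ND → Prop} {L : List ND} {n a m : ℕ}
    (h : ∀ k < n, P (a + k) (L.getD k default)) (h1 : a ≤ m) (h2 : m < a + n) :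
    P m (L.getD (m - a) default) := by
  have := h (m - a) (by omega)
  rwa [show a + (m - a) = m by omega] at this

/-- the node `m / 400` on the grid of width `1 / 10` -/
def nd10 (m : ℕ) : ND :=
  if m < 19 then nd10a.getD (m - 0) default else
  if m < 37 then nd10b.getD (m - 19) default else
  if m < 55 then nd10c.getD (m - 37) default else
  nd10d.getD (m - 55) default

theorem nd10_ok {m : ℕ} (h1 : 0 ≤ m) (h2 : m < 73) : nodeOk g10 m (nd10 m) = true := by
  have k0 : ∀ k < 19, nodeOk g10 (0 + k) (nd10a.getD k default) = true := fun k hk =>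
    List.all_eq_true.1 nd10a_ok k (List.mem_range.2 hk)
  have k1 : ∀ k < 18, nodeOk g10 (19 + k) (nd10b.getD k default) = true := fun k hk =>
    List.all_eq_true.1 nd10b_ok k (List.mem_range.2 hk)
  have k2 : ∀ k < 18, nodeOk g10 (37 + k) (nd10c.getD k default) = true := fun k hk =>
    List.all_eq_true.1 nd10c_ok k (List.mem_range.2 hk)
  have k3 : ∀ k < 18, nodeOk g10 (55 + k) (nd10d.getD k default) = true := fun k hk =>
    List.all_eq_true.1 nd10d_ok k (List.mem_range.2 hk)
  unfold nd10
  by_cases c0 : m < 19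
  · rw [if_pos c0]
    exact seg_get (P := fun m d => nodeOk g10 m d = true) k0 (by omega) (by omega)
  rw [if_neg c0]
  by_cases c1 : m < 37
  · rw [if_pos c1]
    exact seg_get (P := fun m d => nodeOk g10 m d = true) k1 (by omega) (by omega)
  rw [if_neg c1]
  by_cases c2 : m < 55
  · rw [if_pos c2]
    exact seg_get (P := fun m d => nodeOk g10 m d = true) k2 (by omega) (by omega)
  rw [if_neg c2]
  exact seg_get (P := fun m d => nodeOk g10 m d = true) k3 (by omega) (by omega)

/-- the node `m / 400` on the grid of width `1 / 20` -/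
def nd20 (m : ℕ) : ND :=
  if m < 80 then nd20a.getD (m - 72) default else
  if m < 88 then nd20b.getD (m - 80) default else
  if m < 95 then nd20c.getD (m - 88) default else
  nd20d.getD (m - 95) default

theorem nd20_ok {m : ℕ} (h1 : 72 ≤ m) (h2 : m < 101) : nodeOk g20 m (nd20 m) = true := by
  have k0 : ∀ k < 8, nodeOk g20 (72 + k) (nd20a.getD k default) = true := fun k hk =>
    List.all_eq_true.1 nd20a_ok k (List.mem_range.2 hk)
  have k1 : ∀ k < 8, nodeOk g20 (80 + k) (nd20b.getD k default) = true := fun k hk =>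
    List.all_eq_true.1 nd20b_ok k (List.mem_range.2 hk)
  have k2 : ∀ k < 7, nodeOk g20 (88 + k) (nd20c.getD k default) = true := fun k hk =>
    List.all_eq_true.1 nd20c_ok k (List.mem_range.2 hk)
  have k3 : ∀ k < 6, nodeOk g20 (95 + k) (nd20d.getD k default) = true := fun k hk =>
    List.all_eq_true.1 nd20d_ok k (List.mem_range.2 hk)
  unfold nd20
  by_cases c0 : m < 80
  · rw [if_pos c0]
    exact seg_get (P := fun m d => nodeOk g20 m d = true) k0 (by omega) (by omega)
  rw [if_neg c0]
  by_cases c1 : m < 88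
  · rw [if_pos c1]
    exact seg_get (P := fun m d => nodeOk g20 m d = true) k1 (by omega) (by omega)
  rw [if_neg c1]
  by_cases c2 : m < 95
  · rw [if_pos c2]
    exact seg_get (P := fun m d => nodeOk g20 m d = true) k2 (by omega) (by omega)
  rw [if_neg c2]
  exact seg_get (P := fun m d => nodeOk g20 m d = true) k3 (by omega) (by omega)

end LpSec.G3
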